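import Pool.Agent.Run7.h936.SO.Codes

/-!
# Graphs of partial recursive functions are definable, uniformly in all full levels
-/

namespace Run7.h505.SO

universe u

open Ordinal Set Run7.h936.SO

/-- `v_i` is zero. -/
def zf (i : ℕ) : Fm := Fm.all (Fm.not (Fm.ltv 0 (i + 1)))

/-- `v_j` is the successor of `v_i`. -/
def sf (i j : ℕ) : Fm :=
  Fm.and (Fm.ltv i j) (Fm.all (Fm.imp (Fm.ltv 0 (j + 1)) (Fm.not (Fm.ltv (i + 1) 0))))

/-- `v_i` is a natural number. -/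
def nf (i : ℕ) : Fm :=
  Fm.all (Fm.imp (Fm.not (Fm.ltv (i + 1) 0)) (Fm.or (zf 0) (Fm.ex (sf 0 1))))

section
variable {δ : Ordinal.{u}} [COrd δ]

@[simp] theorem sat_zf (i : ℕ) (a : Lvl δ) :
    (zf i).Sat (Lv δ) a ↔ (nth (Lv δ) a i).1 = 0 := by
  simp only [zf, Fm.sat_all, Fm.sat_not, sat_ltv, nth_pr_zero, nth_pr_succ]
  constructor
  · intro h
    by_contra hne
    have hpos : 0 < (nth (Lv δ) a i).1 := pos_iff_ne_zero.2 hne
    exact h ⟨0, COrd.pos⟩ hpos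
  · intro h x hx
    have hx' : x.1 < (nth (Lv δ) a i).1 := hx
    rw [h] at hx'
    exact absurd hx' (not_lt.2 zero_le)

@[simp] theorem sat_sf (i j : ℕ) (a : Lvl δ) :
    (sf i j).Sat (Lv δ) a ↔ (nth (Lv δ) a j).1 = (nth (Lv δ) a i).1 + 1 := by
  simp only [sf, Fm.sat_all, Fm.sat_and, Fm.sat_imp, Fm.sat_not, sat_ltv, nth_pr_zero, nth_pr_succ]
  constructor
  · rintro ⟨h1, h2⟩
    have h1' : (nth (Lv δ) a i).1 < (nth (Lv δ) a j).1 := h1
    apply le_antisymm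
    · by_contra hlt
      push Not at hlt
      have h3 := h2 ⟨(nth (Lv δ) a i).1 + 1, hlt.trans (nth (Lv δ) a j).2⟩ hlt
      apply h3
      change (nth (Lv δ) a i).1 < (nth (Lv δ) a i).1 + 1
      exact lt_add_one _
    · exact Order.add_one_le_of_lt h1'
  · intro h
    constructor
    · change (nth (Lv δ) a i).1 < (nth (Lv δ) a j).1
      rw [h]
      exact lt_add_one _
    · intro x hx hlt
      have hx' : x.1 < (nth (Lv δ) a j).1 := hx
      have hlt' : (nth (Lv δ) a i).1 < x.1 := hlt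
      rw [h] at hx'
      exact absurd (Order.lt_add_one_iff.1 hx') (not_le.2 hlt')

@[simp] theorem sat_nf (i : ℕ) (a : Lvl δ) :
    (nf i).Sat (Lv δ) a ↔ ∃ n : ℕ, (nth (Lv δ) a i).1 = n := by
  simp only [nf, Fm.sat_all, Fm.sat_imp, Fm.sat_not, Fm.sat_or, Fm.sat_ex', sat_ltv, sat_zf, sat_sf,
    nth_pr_zero, nth_pr_succ]
  constructor
  · intro h
    by_contra hne
    push Not at hne
    have hω : ω ≤ (nth (Lv δ) a i).1 := by
      by_contra hlt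
      push Not at hlt
      obtain ⟨n, hn⟩ := lt_omega0.1 hlt
      exact hne n hn
    have := h ⟨ω, hω.trans_lt (nth (Lv δ) a i).2⟩ (fun hlt => by
      have hlt' : (nth (Lv δ) a i).1 < ω := hlt
      exact absurd hω (not_le.2 hlt'))
    rcases this with h0 | ⟨z, hz⟩
    · exact absurd h0 omega0_ne_zero
    · have hz' : ω = z.1 + 1 := hz
      have h1 : z.1 < ω := by rw [hz']; exact lt_add_one _
      have h2 := isSuccLimit_omega0.succ_lt h1
      rw [Order.succ_eq_add_one, ← hz'] at h2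
      exact lt_irrefl _ h2
  · rintro ⟨n, hn⟩ x hx
    have hx' : ¬ (nth (Lv δ) a i).1 < x.1 := hx
    rw [hn] at hx'
    push Not at hx'
    obtain ⟨m, hm⟩ := lt_omega0.1 (hx'.trans_lt (natCast_lt_omega0 n))
    rcases m with _ | m
    · left; rw [hm]; exact Nat.cast_zero
    · right
      have hmx : (m : Ordinal.{u}) ≤ x.1 := by rw [hm]; exact_mod_cast Nat.le_succ m
      refine ⟨⟨m, lt_of_le_of_lt hmx x.2⟩, ?_⟩
      exact hm.trans (Nat.cast_succ m)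

end

theorem opair_eq_nat {x y : Ordinal.{u}} {n : ℕ} (h : opair x y = n) :
    x = (n.unpair.1 : ℕ) ∧ y = (n.unpair.2 : ℕ) := by
  have h1 : opair x y = opair ((n.unpair.1 : ℕ) : Ordinal.{u}) ((n.unpair.2 : ℕ) : Ordinal.{u}) := by
    rw [h, opair_nat, Nat.pair_unpair]
  exact opair_inj h1

/-- Definability of the graph. -/
def Dfb (f : ℕ →. ℕ) : Prop := ∃ φ : Fm,
    ∀ (Ω : Ordinal.{u}) [FullΩ Ω] (x y t : Lvl Ω),
      φ.Sat (Lv Ω) (PFun.pr (Lv Ω) x (PFun.pr (Lv Ω) y t)) ↔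
        ∃ a b : ℕ, x.1 = a ∧ y.1 = b ∧ b ∈ f a

theorem dfb_zero : Dfb.{u} (pure 0) := by
  refine ⟨Fm.and (nf 0) (zf 1), ?_⟩
  intro Ω _ x y t
  simp only [Fm.sat_and, sat_nf, sat_zf, nth_pr_zero, nth_pr_succ]
  constructor
  · rintro ⟨⟨a, ha⟩, h⟩
    refine ⟨a, 0, ha, ?_, ?_⟩
    · rw [h]; exact Nat.cast_zero.symm
    · exact Part.mem_some 0
  · rintro ⟨a, b, ha, hb, h⟩
    have : b = 0 := Part.mem_some_iff.1 h
    subst this
    exact ⟨⟨a, ha⟩, by rw [hb]; exact Nat.cast_zero⟩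

theorem dfb_succ : Dfb.{u} (Nat.succ : ℕ → ℕ) := by
  refine ⟨Fm.and (nf 0) (sf 0 1), ?_⟩
  intro Ω _ x y t
  simp only [Fm.sat_and, sat_nf, sat_sf, nth_pr_zero, nth_pr_succ]
  constructor
  · rintro ⟨⟨a, ha⟩, h⟩
    refine ⟨a, a + 1, ha, ?_, ?_⟩
    · rw [h, ha]; exact (Nat.cast_succ a).symm
    · exact Part.mem_some_iff.2 rfl
  · rintro ⟨a, b, ha, hb, h⟩
    have : b = a + 1 := Part.mem_some_iff.1 h
    subst this
    exact ⟨⟨a, ha⟩, by rw [hb, ha]; exact Nat.cast_succ a⟩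

theorem dfb_left : Dfb.{u} (fun n : ℕ => n.unpair.1) := by
  refine ⟨Fm.and (nf 0) (Fm.ex (Fm.prv 2 0 1)), ?_⟩
  intro Ω _ x y t
  simp only [Fm.sat_and, sat_nf, Fm.sat_ex', Fm.sat_prv, nth_pr_zero, nth_pr_succ]
  constructor
  · rintro ⟨⟨a, ha⟩, z, hz⟩
    have hz' : opair y.1 z.1 = x.1 := congrArg Subtype.val hz
    rw [ha] at hz'
    exact ⟨a, a.unpair.1, ha, (opair_eq_nat hz').1, Part.mem_some_iff.2 rfl⟩
  · rintro ⟨a, b, ha, hb, h⟩
    have : b = a.unpair.1 := Part.mem_some_iff.1 h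
    subst this
    refine ⟨⟨a, ha⟩, PFun.f2 (Lv Ω) x, ?_⟩
    apply Subtype.ext
    rw [pr_val, f2_val, hb, ha, of2_nat, opair_nat, Nat.pair_unpair]

theorem dfb_right : Dfb.{u} (fun n : ℕ => n.unpair.2) := by
  refine ⟨Fm.and (nf 0) (Fm.ex (Fm.prv 0 2 1)), ?_⟩
  intro Ω _ x y t
  simp only [Fm.sat_and, sat_nf, Fm.sat_ex', Fm.sat_prv, nth_pr_zero, nth_pr_succ]
  constructor
  · rintro ⟨⟨a, ha⟩, z, hz⟩
    have hz' : opair z.1 y.1 = x.1 := congrArg Subtype.val hz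
    rw [ha] at hz'
    exact ⟨a, a.unpair.2, ha, (opair_eq_nat hz').2, Part.mem_some_iff.2 rfl⟩
  · rintro ⟨a, b, ha, hb, h⟩
    have : b = a.unpair.2 := Part.mem_some_iff.1 h
    subst this
    refine ⟨⟨a, ha⟩, PFun.f1 (Lv Ω) x, ?_⟩
    apply Subtype.ext
    rw [pr_val, f1_val, hb, ha, of1_nat, opair_nat, Nat.pair_unpair]

theorem dfb_pair {f g : ℕ →. ℕ} (hf : Dfb.{u} f) (hg : Dfb.{u} g) :
    Dfb.{u} (fun n => Nat.pair <$> f n <*> g n) := by
  obtain ⟨φ, hφ⟩ := hf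
  obtain ⟨ψ, hψ⟩ := hg
  -- env: v0 = v, v1 = u, v2 = x, v3 = y
  refine ⟨Fm.ex (Fm.ex (Fm.and (Fm.app φ [2, 1] 0) (Fm.and (Fm.app ψ [2, 0] 0) (Fm.prv 1 0 3)))), ?_⟩
  intro Ω _ x y t
  simp only [Fm.sat_and, Fm.sat_ex', Fm.sat_prv, Fm.sat_app, nth_pr_zero, nth_pr_succ, List.map_cons,
    List.map_nil, List.foldr_cons, List.foldr_nil, hφ, hψ]
  constructor
  · rintro ⟨u, v, ⟨a, b, h1, h2, h3⟩, ⟨a', b', h4, h5, h6⟩, h7⟩
    have : a' = a := by
      rw [h1] at h4; exact_mod_cast h4.symm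
    subst this
    have h7' : opair u.1 v.1 = y.1 := congrArg Subtype.val h7
    refine ⟨a', Nat.pair b b', h1, ?_, ?_⟩
    · rw [← h7', h2, h5, opair_nat]
    · simp only [Seq.seq, Part.map_eq_map, Part.mem_bind_iff, Part.mem_map_iff]
      exact ⟨_, ⟨b, h3, rfl⟩, b', h6, rfl⟩
  · rintro ⟨a, b, h1, h2, h3⟩
    simp only [Seq.seq, Part.map_eq_map, Part.mem_bind_iff, Part.mem_map_iff] at h3
    obtain ⟨_, ⟨c, hc, rfl⟩, d, hd, rfl⟩ := h3
    have h2' : y.1 = opair (c : Ordinal.{u}) (d : Ordinal.{u}) := by rw [h2, opair_nat]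
    have hcy : (c : Ordinal.{u}) < Ω := lt_of_le_of_lt (le_opair_left _ _) (h2' ▸ y.2)
    have hdy : (d : Ordinal.{u}) < Ω := lt_of_le_of_lt (le_opair_right _ _) (h2' ▸ y.2)
    refine ⟨⟨c, hcy⟩, ⟨d, hdy⟩, ⟨a, c, h1, rfl, hc⟩, ⟨a, d, h1, rfl, hd⟩, ?_⟩
    apply Subtype.ext
    rw [pr_val, h2']

theorem nat_lt_full (Ω : Ordinal.{u}) [FullΩ Ω] (n : ℕ) : (n : Ordinal.{u}) < Ω :=
  (natCast_lt_omega0 n).trans FullΩ.omega_lt

theorem dfb_comp {f g : ℕ →. ℕ} (hf : Dfb.{u} f) (hg : Dfb.{u} g) :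
    Dfb.{u} (fun n => g n >>= f) := by
  obtain ⟨φ, hφ⟩ := hf
  obtain ⟨ψ, hψ⟩ := hg
  refine ⟨Fm.ex (Fm.and (Fm.app ψ [1, 0] 0) (Fm.app φ [0, 2] 0)), ?_⟩
  intro Ω _ x y t
  simp only [Fm.sat_and, Fm.sat_ex', Fm.sat_app, nth_pr_zero, nth_pr_succ, List.map_cons,
    List.map_nil, List.foldr_cons, List.foldr_nil, hφ, hψ]
  constructor
  · rintro ⟨u, ⟨a, b, h1, h2, h3⟩, ⟨a', b', h4, h5, h6⟩⟩
    have : a' = b := by
      rw [h2] at h4; exact_mod_cast h4.symm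
    subst this
    exact ⟨a, b', h1, h5, Part.mem_bind_iff.2 ⟨_, h3, h6⟩⟩
  · rintro ⟨a, b, h1, h2, h3⟩
    obtain ⟨c, hc, hd⟩ := Part.mem_bind_iff.1 h3
    exact ⟨⟨c, nat_lt_full Ω c⟩, ⟨a, c, h1, rfl, hc⟩, ⟨c, b, rfl, h2, hd⟩⟩

theorem dfb_rfind {f : ℕ →. ℕ} (hf : Dfb.{u} f) :
    Dfb.{u} (fun a => Nat.rfind fun n => (fun m => m = 0) <$> f (Nat.pair a n)) := by
  obtain ⟨φ, hφ⟩ := hf
  -- f ⟨x,y⟩ = 0  and  forall m < y, exists c ≠ 0, f ⟨x,m⟩ = c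
  refine ⟨Fm.and
    (Fm.ex (Fm.ex (Fm.and (Fm.prv 2 3 1) (Fm.and (zf 0) (Fm.app φ [1, 0] 0)))))
    (Fm.all (Fm.imp (Fm.ltv 0 2)
      (Fm.ex (Fm.ex (Fm.and (Fm.prv 3 2 1) (Fm.and (Fm.not (zf 0)) (Fm.app φ [1, 0] 0))))))), ?_⟩
  intro Ω _ x y t
  simp only [Fm.sat_and, Fm.sat_imp, Fm.sat_not, Fm.sat_all, Fm.sat_ex', Fm.sat_prv, Fm.sat_app,
    sat_zf, sat_ltv, nth_pr_zero, nth_pr_succ, List.map_cons,
    List.map_nil, List.foldr_cons, List.foldr_nil, hφ]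
  constructor
  · rintro ⟨⟨p, q, h1, h2, a, b, h3, h4, h5⟩, h6⟩
    have h1' : opair x.1 y.1 = p.1 := congrArg Subtype.val h1
    rw [h3] at h1'
    obtain ⟨hx, hy⟩ := opair_eq_nat h1'
    refine ⟨a.unpair.1, a.unpair.2, hx, hy, ?_⟩
    have hb : b = 0 := by
      rw [h2] at h4; exact_mod_cast h4.symm
    subst hb
    rw [Nat.mem_rfind]
    constructor
    · rw [Part.map_eq_map, Part.mem_map_iff]
      refine ⟨0, ?_, by simp⟩
      rw [Nat.pair_unpair]; exact h5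
    · intro m hm
      have hm' : (m : Ordinal.{u}) < y.1 := by rw [hy]; exact_mod_cast hm
      obtain ⟨p', q', h7, h8, a', b', h9, h10, h11⟩ := h6 ⟨m, hm'.trans y.2⟩ hm'
      have h7' : opair x.1 (m : Ordinal.{u}) = p'.1 := congrArg Subtype.val h7
      rw [hx, opair_nat, h9] at h7'
      have ha' : Nat.pair a.unpair.1 m = a' := by exact_mod_cast h7'
      rw [Part.map_eq_map, Part.mem_map_iff]
      refine ⟨b', by rw [ha']; exact h11, ?_⟩
      have : b' ≠ 0 := by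
        rintro rfl
        apply h8
        rw [h10]; exact Nat.cast_zero
      simp [this]
  · rintro ⟨a, b, ha, hb, h⟩
    rw [Nat.mem_rfind] at h
    obtain ⟨h1, h2⟩ := h
    rw [Part.map_eq_map, Part.mem_map_iff] at h1
    obtain ⟨c, hc, hc'⟩ := h1
    have hc0 : c = 0 := by simpa using hc'
    subst hc0
    constructor
    · refine ⟨⟨Nat.pair a b, nat_lt_full Ω _⟩, ⟨0, COrd.pos⟩, ?_, rfl, Nat.pair a b, 0, rfl,
        Nat.cast_zero.symm, hc⟩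
      apply Subtype.ext
      rw [pr_val, ha, hb, opair_nat]
    · intro m hm
      have hm' : m.1 < y.1 := hm
      rw [hb] at hm'
      obtain ⟨n, hn⟩ := lt_omega0.1 (hm'.trans (natCast_lt_omega0 b))
      rw [hn] at hm'
      have hnb : n < b := by exact_mod_cast hm'
      have h3 := h2 hnb
      rw [Part.map_eq_map, Part.mem_map_iff] at h3
      obtain ⟨c, hc1, hc2⟩ := h3
      have hc0 : c ≠ 0 := by simpa using hc2
      refine ⟨⟨Nat.pair a n, nat_lt_full Ω _⟩, ⟨c, nat_lt_full Ω _⟩, ?_, ?_, Nat.pair a n, c, rfl,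
        rfl, hc1⟩
      · apply Subtype.ext
        rw [pr_val, ha, hn, opair_nat]
      · intro h0
        have h0' : (c : Ordinal.{u}) = 0 := h0
        exact hc0 (by exact_mod_cast h0')

theorem dfb_prec {f g : ℕ →. ℕ} (hf : Dfb.{u} f) (hg : Dfb.{u} g) :
    Dfb.{u} (Nat.unpaired fun a n =>
      n.rec (f a) fun y IH => do { let i ← IH; g (Nat.pair a (Nat.pair y i)) }) := by
  obtain ⟨φ, hφ⟩ := hf
  obtain ⟨ψ, hψ⟩ := hg
  set F : ℕ → ℕ → Part ℕ := fun a n =>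
      n.rec (f a) fun y IH => do { let i ← IH; g (Nat.pair a (Nat.pair y i)) } with hF
  have hF0 : ∀ a, F a 0 = f a := fun a => rfl
  have hFs : ∀ a n, F a (n + 1) = (F a n).bind fun i => g (Nat.pair a (Nat.pair n i)) :=
    fun a n => rfl
  -- exists a n c with ⟨a, n⟩ = x, nat x, U ⟨n,y⟩ c,
  -- forall i s, U ⟨i,s⟩ c → (i = 0 ∧ φ(a,s)) ∨ exists j s', i = j+1 ∧ U ⟨j,s'⟩ c ∧ ψ(⟨a,⟨j,s'⟩⟩,s)
  -- env after ex a, ex n, ex c: v0 = c, v1 = n, v2 = a, v3 = x, v4 = y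
  let upair : ℕ → ℕ → ℕ → Fm := fun i j c => Fm.ex (Fm.and (Fm.prv (i + 1) (j + 1) 0) (Fm.Uv 0 (c + 1)))
  have hup : ∀ (Ω : Ordinal.{u}) [FullΩ Ω] (i j c : ℕ) (a : Lvl Ω),
      (upair i j c).Sat (Lv Ω) a ↔
        U (opair (nth (Lv Ω) a i).1 (nth (Lv Ω) a j).1) (nth (Lv Ω) a c).1 := by
    intro Ω _ i j c a
    simp only [upair, Fm.sat_and, Fm.sat_ex', Fm.sat_prv, sat_Uv, nth_pr_zero, nth_pr_succ]
    constructor
    · rintro ⟨z, rfl, h⟩; exact h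
    · intro h; exact ⟨_, rfl, h⟩
  -- inner formula for env: v0 = s', v1 = j, v2 = s, v3 = i, v4 = c, v5 = n, v6 = a
  let inner : Fm := Fm.and (sf 1 3) (Fm.and (upair 1 0 4)
    (Fm.ex (Fm.and (Fm.prv 2 1 0) (Fm.ex (Fm.and (Fm.prv 8 1 0) (Fm.app ψ [0, 4] 0))))))
  let step : Fm := Fm.all (Fm.all (Fm.imp (upair 1 0 2)
    (Fm.or (Fm.and (zf 1) (Fm.app φ [4, 0] 0)) (Fm.ex (Fm.ex inner)))))
  refine ⟨Fm.and (nf 0) (Fm.ex (Fm.ex (Fm.ex (Fm.and (Fm.prv 2 1 3)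
    (Fm.and (upair 1 4 0) step))))), ?_⟩
  intro Ω _ x y t
  simp only [step, inner, Fm.sat_and, Fm.sat_or, Fm.sat_imp, Fm.sat_all, Fm.sat_ex',
    Fm.sat_prv, Fm.sat_app, hup,
    sat_zf, sat_sf, sat_nf, nth_pr_zero, nth_pr_succ, List.map_cons,
    List.map_nil, List.foldr_cons, List.foldr_nil, hφ, hψ]
  constructor
  · rintro ⟨⟨m, hm⟩, a, n, c, h1, h2, h3⟩
    have h1' : opair a.1 n.1 = x.1 := congrArg Subtype.val h1
    rw [hm] at h1'
    obtain ⟨ha, hn⟩ := opair_eq_nat h1'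
    have key : ∀ (k : ℕ) (s : Ordinal.{u}) , s < Ω → U (opair (k : Ordinal.{u}) s) c.1 →
        ∃ b : ℕ, s = b ∧ b ∈ F m.unpair.1 k := by
      intro k
      induction k with
      | zero =>
        intro s hs hU
        rcases h3 ⟨((0 : ℕ) : Ordinal.{u}), nat_lt_full Ω _⟩ ⟨s, hs⟩ hU with ⟨_, a', b, h4, h5, h6⟩ |
          ⟨j, s', h4, _⟩
        · refine ⟨b, h5, ?_⟩
          rw [hF0]
          have : a' = m.unpair.1 := by
            rw [ha] at h4; exact_mod_cast h4.symm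
          rw [← this]; exact h6
        · exfalso
          have h4' : ((0 : ℕ) : Ordinal.{u}) = j.1 + 1 := h4
          rw [Nat.cast_zero] at h4'
          have : j.1 < 0 := by rw [h4']; exact lt_add_one _
          exact absurd this (not_lt.2 zero_le)
      | succ k ih =>
        intro s hs hU
        rcases h3 ⟨((k + 1 : ℕ) : Ordinal.{u}), nat_lt_full Ω _⟩ ⟨s, hs⟩ hU with ⟨h4, _⟩ |
          ⟨j, s', h4, h5, p, h6, q, h7, a', b, h8, h9, h10⟩
        · exfalso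
          have h4' : ((k + 1 : ℕ) : Ordinal.{u}) = 0 := h4
          have : k + 1 = 0 := by exact_mod_cast h4'
          omega
        · have h4' : ((k + 1 : ℕ) : Ordinal.{u}) = j.1 + 1 := h4
          have hj : j.1 = (k : Ordinal.{u}) := by
            rw [Nat.cast_succ] at h4'
            simpa using h4'.symm
          rw [hj] at h5
          obtain ⟨b', hb', hb''⟩ := ih s'.1 s'.2 h5
          refine ⟨b, h9, ?_⟩
          rw [hFs]
          refine Part.mem_bind_iff.2 ⟨b', hb'', ?_⟩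
          have h6' : opair j.1 s'.1 = p.1 := congrArg Subtype.val h6
          have h7' : opair a.1 p.1 = q.1 := congrArg Subtype.val h7
          rw [hj, hb', opair_nat] at h6'
          rw [← h6', ha, opair_nat, h8] at h7'
          have : Nat.pair m.unpair.1 (Nat.pair k b') = a' := by exact_mod_cast h7'
          rw [this]; exact h10
    rw [hn] at h2
    obtain ⟨b, hb, hb'⟩ := key m.unpair.2 y.1 y.2 h2
    exact ⟨m, b, hm, hb, hb'⟩
  · rintro ⟨m, b, hm, hb, h⟩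
    refine ⟨⟨m, hm⟩, ⟨(m.unpair.1 : ℕ), nat_lt_full Ω _⟩, ⟨(m.unpair.2 : ℕ), nat_lt_full Ω _⟩, ?_⟩
    obtain ⟨c, hc, hc'⟩ := FullΩ.full (Ω := Ω) ω FullΩ.omega_lt
      {ξ | ∃ k s : ℕ, ξ = opair (k : Ordinal.{u}) (s : Ordinal.{u}) ∧ s ∈ F m.unpair.1 k} (by
        rintro ξ ⟨k, s, rfl, _⟩
        rw [opair_nat]; exact natCast_lt_omega0 _)
    refine ⟨⟨c, hc⟩, ?_, ?_, ?_⟩
    · apply Subtype.ext
      rw [pr_val, hm, opair_nat, Nat.pair_unpair]
    · rw [hb, hc']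
      exact ⟨m.unpair.2, b, rfl, h⟩
    · intro i s hU
      have hU' : U (opair i.1 s.1) c := hU
      rw [hc'] at hU'
      obtain ⟨k, s', h1, h2⟩ := hU'
      obtain ⟨hi, hs⟩ := opair_inj h1
      rcases k with _ | k
      · left
        refine ⟨by rw [hi]; exact Nat.cast_zero, m.unpair.1, s', rfl, hs, h2⟩
      · right
        rw [hFs] at h2
        obtain ⟨b', hb1, hb2⟩ := Part.mem_bind_iff.1 h2
        refine ⟨⟨k, nat_lt_full Ω k⟩, ⟨b', nat_lt_full Ω b'⟩, ?_, ?_, ?_⟩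
        · rw [hi]; exact Nat.cast_succ k
        · change U (opair (k : Ordinal.{u}) (b' : Ordinal.{u})) c
          rw [hc']
          exact ⟨k, b', rfl, hb1⟩
        · refine ⟨⟨Nat.pair k b', nat_lt_full Ω _⟩, ?_, ⟨Nat.pair m.unpair.1 (Nat.pair k b'),
            nat_lt_full Ω _⟩, ?_, Nat.pair m.unpair.1 (Nat.pair k b'), s', rfl, hs, hb2⟩
          · apply Subtype.ext
            rw [pr_val, opair_nat]
          · apply Subtype.ext
            rw [pr_val, opair_nat]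

/-- Graphs of partial recursive functions are definable, uniformly in all full levels. -/
theorem partrec_def {f : ℕ →. ℕ} (hf : Nat.Partrec f) : ∃ φ : Fm,
    ∀ (Ω : Ordinal.{u}) [FullΩ Ω] (x y t : Lvl Ω),
      φ.Sat (Lv Ω) (PFun.pr (Lv Ω) x (PFun.pr (Lv Ω) y t)) ↔
        ∃ a b : ℕ, x.1 = a ∧ y.1 = b ∧ b ∈ f a := by
  have : Dfb.{u} f := by
    induction hf with
    | zero => exact dfb_zero
    | succ => exact dfb_succ
    | left => exact dfb_left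
    | right => exact dfb_right
    | pair _ _ h1 h2 => exact dfb_pair h1 h2
    | comp _ _ h1 h2 => exact dfb_comp h1 h2
    | prec _ _ h1 h2 => exact dfb_prec h1 h2
    | rfind _ h1 => exact dfb_rfind h1
  exact this

end Run7.h505.SO
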