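import Pool.Agent.Run7.h505.SO.Util

/-!
# Definability of isomorphism of codes, of codes of functions, of comparison of cardinals
-/

namespace Run7.h505.SO

universe u

open Ordinal Set Run7.h936.SO

/-! ### N3 -/

theorem card_def : ∃ φ : Fm, ∀ (Ω : Ordinal.{u}) [FullΩ Ω] (z o t : Lvl Ω),
    φ.Sat (Lv Ω) ([z, o].foldr (PFun.pr (Lv Ω)) t) ↔ z.1.card ≤ o.1.card := by
  -- env: v0 = c, v1 = z, v2 = o
  refine ⟨Fm.ex (Fm.and
    (Fm.all (Fm.imp (Fm.ltv 0 2) (Fm.ex (Fm.and (Fm.ltv 0 4) (upf 1 0 2)))))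
    (Fm.all (Fm.all (Fm.all (Fm.imp (upf 2 0 3) (Fm.imp (upf 1 0 3) (Fm.eqv 2 1))))))), ?_⟩
  intro Ω _ z o t
  simp only [List.foldr_cons, List.foldr_nil, Fm.sat_and, Fm.sat_ex', Fm.sat_all, Fm.sat_imp,
    sat_ltv, sat_upf, Fm.sat_eqv, nth_pr_zero, nth_pr_succ]
  have hcard : z.1.card ≤ o.1.card ↔ Nonempty (Iio z.1 ↪ Iio o.1) := by
    rw [← Cardinal.lift_le.{u + 1}, ← Cardinal.mk_Iio_ordinal, ← Cardinal.mk_Iio_ordinal,
      Cardinal.le_def]
  rw [hcard]
  constructor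
  · rintro ⟨c, h1, h2⟩
    have h1' : ∀ ξ : Iio z.1, ∃ η : Lvl Ω, η < o ∧ U (opair ξ.1 η.1) c.1 :=
      fun ξ => h1 ⟨ξ.1, lt_trans ξ.2 z.2⟩ ξ.2
    choose g hg1 hg2 using h1'
    refine ⟨⟨fun ξ => ⟨(g ξ).1, hg1 ξ⟩, ?_⟩⟩
    intro ξ ξ' h
    have h3 : (g ξ).1 = (g ξ').1 := congrArg (fun w : Iio o.1 => w.1) h
    have h4 := h2 ⟨ξ.1, lt_trans ξ.2 z.2⟩ ⟨ξ'.1, lt_trans ξ'.2 z.2⟩ (g ξ) (hg2 ξ)
      (by rw [h3]; exact hg2 ξ')
    exact Subtype.ext (congrArg (fun w : Lvl Ω => w.1) h4)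
  · rintro ⟨g⟩
    obtain ⟨c, hc⟩ := full_le (Ω := Ω) (γ := opair z.1 o.1) (COrd.closed _ z.2 _ o.2)
      {ξ | ∃ η : Iio z.1, ξ = opair η.1 (g η).1} (by
        rintro ξ ⟨η, rfl⟩
        exact opair_mono (le_of_lt η.2) (le_of_lt (g η).2))
    refine ⟨c, ?_, ?_⟩
    · intro ξ hξ
      refine ⟨⟨(g ⟨ξ.1, hξ⟩).1, lt_trans (g ⟨ξ.1, hξ⟩).2 o.2⟩, (g ⟨ξ.1, hξ⟩).2, ?_⟩
      rw [hc]
      exact ⟨⟨ξ.1, hξ⟩, rfl⟩
    · intro ξ ξ' η h3 h4
      rw [hc] at h3 h4
      obtain ⟨a, ha⟩ := h3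
      obtain ⟨b, hb⟩ := h4
      obtain ⟨ha1, ha2⟩ := opair_inj ha
      obtain ⟨hb1, hb2⟩ := opair_inj hb
      have : g a = g b := Subtype.ext (ha2.symm.trans hb2)
      have hab := g.injective this
      apply Subtype.ext
      rw [ha1, hb1, hab]

/-! ### N2 -/

/-- Quantify over all stacks of length `n` of elements `< o`, on top of the stack `s`; environment
`[s, o, y]`. -/
def allS (B : Fm) : ℕ → Fm
  | 0 => B
  | n + 1 => Fm.all (Fm.imp (Fm.ltv 0 2) (Fm.ex (Fm.and (Fm.prv 1 2 0)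
      (Fm.app (allS B n) [0, 3, 4] 0))))

theorem sat_allS {Ω : Ordinal.{u}} [FullΩ Ω] (B : Fm) (P : Lvl Ω → Lvl Ω → Lvl Ω → Prop)
    (hB : ∀ s o y t : Lvl Ω, B.Sat (Lv Ω) ([s, o, y].foldr (PFun.pr (Lv Ω)) t) ↔ P s o y)
    (n : ℕ) (s o y t : Lvl Ω) :
    (allS B n).Sat (Lv Ω) ([s, o, y].foldr (PFun.pr (Lv Ω)) t) ↔
      ∀ l : List (Lvl Ω), l.length = n → (∀ x ∈ l, x < o) →
        P (l.foldr (PFun.pr (Lv Ω)) s) o y := by
  induction n generalizing s t with
  | zero =>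
    rw [allS, hB]
    constructor
    · intro h l hl _
      rw [List.length_eq_zero_iff] at hl
      subst hl; exact h
    · intro h; exact h [] rfl (by simp)
  | succ n ih =>
    have ih' := fun s t => ih s t
    simp only [List.foldr_cons, List.foldr_nil] at ih'
    simp only [allS, List.foldr_cons, List.foldr_nil, Fm.sat_and, Fm.sat_ex', Fm.sat_all,
      Fm.sat_imp, sat_ltv, Fm.sat_prv, Fm.sat_app, List.map_cons, List.map_nil, nth_pr_zero,
      nth_pr_succ, ih']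
    constructor
    · intro h l hl hlo
      obtain ⟨l', x, rfl⟩ : ∃ l' x, l = l' ++ [x] := by
        refine ⟨l.dropLast, l.getLast (by rintro rfl; simp at hl), ?_⟩
        exact (List.dropLast_append_getLast _).symm
      rw [List.foldr_append]
      obtain ⟨p, hp, h2⟩ := h x (hlo x (by simp))
      have := h2 l' (by simpa using hl) (fun y hy => hlo y (by simp [hy]))
      rw [← hp] at this
      exact this
    · intro h x hx
      refine ⟨_, rfl, fun l hl hlo => ?_⟩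
      have := h (l ++ [x]) (by simp [hl]) (by
        intro y hy
        rw [List.mem_append, List.mem_singleton] at hy
        rcases hy with hy | rfl
        · exact hlo y hy
        · exact hx)
      rw [List.foldr_append] at this
      exact this

theorem fnCode_def (V : Vocab) : ∃ φ : Fm, ∀ (Ω : Ordinal.{u}) [FullΩ Ω] (o y t : Lvl Ω),
    φ.Sat (Lv Ω) ([o, y].foldr (PFun.pr (Lv Ω)) t) ↔ FnCode V o.1 y.1 := by
  -- body: env [s, o, y]: ∃ η < o, ∀ η' < o, (U ⟨r, ⟨η', s⟩⟩ y ↔ η' = η)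
  let B : Fin V.nFun → Fm := fun f =>
    Fm.ex (Fm.and (Fm.ltv 0 2) (Fm.all (Fm.imp (Fm.ltv 0 3)
      (Fm.iff (Fm.ex (Fm.ex (Fm.and (numf (V.nRel + f) 1) (Fm.and (Fm.prv 2 4 0) (upf 1 0 6)))))
        (Fm.eqv 0 1)))))
  refine ⟨conj (List.ofFn fun f : Fin V.nFun =>
    Fm.ex (Fm.and (zf 0) (Fm.app (allS (B f) (V.funAr f)) [0, 1, 2] 0))), ?_⟩
  intro Ω _ o y t
  have hB : ∀ (f : Fin V.nFun) (s o y t : Lvl Ω),
      (B f).Sat (Lv Ω) ([s, o, y].foldr (PFun.pr (Lv Ω)) t) ↔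
      ∃ η : Lvl Ω, η < o ∧ ∀ η' : Lvl Ω, η' < o →
        (U (opair ((V.nRel + f : ℕ) : Ordinal.{u}) (opair η'.1 s.1)) y.1 ↔ η' = η) := by
    intro f s o y t
    simp only [B, List.foldr_cons, List.foldr_nil, Fm.sat_and, Fm.sat_ex', Fm.sat_all,
      Fm.sat_imp, Fm.sat_iff, sat_ltv, Fm.sat_prv, sat_upf, sat_numf, Fm.sat_eqv, nth_pr_zero,
      nth_pr_succ]
    refine exists_congr fun η => and_congr_right fun _ => forall_congr' fun η' =>
      forall_congr' fun _ => ?_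
    refine Iff.trans (iff_of_eq ?_) Iff.rfl
    congr 1
    apply propext
    constructor
    · rintro ⟨r, p, h1, rfl, h3⟩
      rw [h1] at h3; exact h3
    · intro h
      exact ⟨⟨_, nat_lt_full Ω _⟩, _, rfl, rfl, h⟩
  have h3 : ∀ f : Fin V.nFun, ∀ o y t : Lvl Ω,
      (Fm.ex (Fm.and (zf 0) (Fm.app (allS (B f) (V.funAr f)) [0, 1, 2] 0))).Sat (Lv Ω)
        ([o, y].foldr (PFun.pr (Lv Ω)) t) ↔
      ∀ l : List (Lvl Ω), l.length = V.funAr f → (∀ x ∈ l, x < o) →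
        ∃ η : Lvl Ω, η < o ∧ ∀ η' : Lvl Ω, η' < o →
        (U (opair ((V.nRel + f : ℕ) : Ordinal.{u}) (opair η'.1 (ostk (l.map Subtype.val)))) y.1 ↔
          η' = η) := by
    intro f o y t
    have h4 := fun s o y t => sat_allS (B f) _ (hB f) (V.funAr f) s o y t
    simp only [List.foldr_cons, List.foldr_nil] at h4
    simp only [List.foldr_cons, List.foldr_nil, Fm.sat_and, Fm.sat_ex', sat_zf, Fm.sat_app,
      List.map_cons, List.map_nil, nth_pr_zero, nth_pr_succ, h4, foldr_val]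
    constructor
    · rintro ⟨s, hs, h⟩ l hl hlo
      have := h l hl hlo
      rw [hs] at this
      exact this
    · intro h
      exact ⟨⟨0, COrd.pos⟩, rfl, fun l hl hlo => h l hl hlo⟩
  rw [sat_conj]
  constructor
  · intro h f ξ hξ
    have h5 := (h3 f o y t).1 (h _ (by rw [List.mem_ofFn]; exact ⟨f, rfl⟩))
      (List.ofFn fun i => ⟨ξ i, (hξ i).trans o.2⟩) (by simp) (by
        intro x hx
        rw [List.mem_ofFn] at hx
        obtain ⟨i, rfl⟩ := hx
        exact hξ i)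
    obtain ⟨η, h6, h7⟩ := h5
    refine ⟨η.1, h6, fun η' hη' => ?_⟩
    have h8 := h7 ⟨η', hη'.trans o.2⟩ hη'
    rw [List.map_ofFn] at h8
    rw [Subtype.ext_iff] at h8
    exact h8
  · intro h φ hφ
    rw [List.mem_ofFn] at hφ
    obtain ⟨f, rfl⟩ := hφ
    rw [h3]
    intro l hl hlo
    obtain ⟨η, h1, h2⟩ := h f (fun i => (l.get (Fin.cast hl.symm i)).1) (fun i =>
      hlo _ (List.get_mem _ _))
    have h4 : List.ofFn (fun i : Fin (V.funAr f) => (l.get (Fin.cast hl.symm i)).1) =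
        l.map Subtype.val := by
      apply List.ext_get
      · simp [hl]
      · intro n h5 h6
        simp
    rw [h4] at h2
    refine ⟨⟨η, h1.trans o.2⟩, h1, fun η' hη' => ?_⟩
    rw [h2 η'.1 hη', Subtype.ext_iff]

/-! ### N1 -/

/-- Quantify over all pairs of stacks of length `n` of corresponding elements; environment
`[s', s, c, o, y, o', y']`. -/
def allT (B : Fm) : ℕ → Fm
  | 0 => B
  | n + 1 => Fm.all (Fm.all (Fm.imp (Fm.ltv 1 5) (Fm.imp (upf 1 0 4)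
      (Fm.ex (Fm.and (Fm.prv 2 4 0) (Fm.ex (Fm.and (Fm.prv 2 4 0)
        (Fm.app (allT B n) [0, 1, 6, 7, 8, 9, 10] 0))))))))

theorem sat_allT {Ω : Ordinal.{u}} [FullΩ Ω] (B : Fm)
    (P : Lvl Ω → Lvl Ω → Lvl Ω → Lvl Ω → Lvl Ω → Lvl Ω → Lvl Ω → Prop)
    (hB : ∀ s' s c o y o' y' t : Lvl Ω,
      B.Sat (Lv Ω) ([s', s, c, o, y, o', y'].foldr (PFun.pr (Lv Ω)) t) ↔ P s' s c o y o' y')
    (n : ℕ) (s' s c o y o' y' t : Lvl Ω) :
    (allT B n).Sat (Lv Ω) ([s', s, c, o, y, o', y'].foldr (PFun.pr (Lv Ω)) t) ↔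
      ∀ l : List (Lvl Ω × Lvl Ω), l.length = n → (∀ x ∈ l, x.1 < o ∧ U (opair x.1.1 x.2.1) c.1) →
        P ((l.map Prod.snd).foldr (PFun.pr (Lv Ω)) s') ((l.map Prod.fst).foldr (PFun.pr (Lv Ω)) s)
          c o y o' y' := by
  induction n generalizing s' s t with
  | zero =>
    rw [allT, hB]
    constructor
    · intro h l hl _
      rw [List.length_eq_zero_iff] at hl
      subst hl; exact h
    · intro h; exact h [] rfl (by simp)
  | succ n ih =>
    have ih' := fun s' s t => ih s' s t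
    simp only [List.foldr_cons, List.foldr_nil] at ih'
    simp only [allT, List.foldr_cons, List.foldr_nil, Fm.sat_and, Fm.sat_ex', Fm.sat_all,
      Fm.sat_imp, sat_ltv, Fm.sat_prv, sat_upf, Fm.sat_app, List.map_cons, List.map_nil,
      nth_pr_zero, nth_pr_succ, ih']
    constructor
    · intro h l hl hlo
      obtain ⟨l', x, rfl⟩ : ∃ l' x, l = l' ++ [x] := by
        refine ⟨l.dropLast, l.getLast (by rintro rfl; simp at hl), ?_⟩
        exact (List.dropLast_append_getLast _).symm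
      rw [List.map_append, List.map_append, List.foldr_append, List.foldr_append]
      obtain ⟨p, hp, q, hq, h2⟩ := h x.1 x.2 (hlo x (by simp)).1 (hlo x (by simp)).2
      have := h2 l' (by simpa using hl) (fun y hy => hlo y (by simp [hy]))
      rw [← hp, ← hq] at this
      exact this
    · intro h x x' hx hxx'
      refine ⟨_, rfl, _, rfl, fun l hl hlo => ?_⟩
      have := h (l ++ [(x, x')]) (by simp [hl]) (by
        intro y hy
        rw [List.mem_append, List.mem_singleton] at hy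
        rcases hy with hy | rfl
        · exact hlo y hy
        · exact ⟨hx, hxx'⟩)
      rw [List.map_append, List.map_append, List.foldr_append, List.foldr_append] at this
      exact this

/-- The relations with code `r` and arity `n` of the codes `y` and `y'` correspond. -/
def relF (r n : ℕ) : Fm := Fm.ex (Fm.and (zf 0) (Fm.app (allT
    (Fm.ex (Fm.and (numf r 0) (Fm.iff (upf 0 2 5) (upf 0 1 7)))) n) [0, 0, 1, 2, 3, 4, 5] 0))

theorem sat_relF {Ω : Ordinal.{u}} [FullΩ Ω] (r n : ℕ) (c o y o' y' t : Lvl Ω) :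
    (relF r n).Sat (Lv Ω) ([c, o, y, o', y'].foldr (PFun.pr (Lv Ω)) t) ↔
    ∀ l : List (Lvl Ω × Lvl Ω), l.length = n → (∀ x ∈ l, x.1 < o ∧ U (opair x.1.1 x.2.1) c.1) →
      (U (opair (r : Ordinal.{u}) (ostk (l.map fun x => x.1.1))) y.1 ↔
       U (opair (r : Ordinal.{u}) (ostk (l.map fun x => x.2.1))) y'.1) := by
  have hB : ∀ s' s c o y o' y' t : Lvl Ω,
      (Fm.ex (Fm.and (numf r 0) (Fm.iff (upf 0 2 5) (upf 0 1 7)))).Sat (Lv Ω)
        ([s', s, c, o, y, o', y'].foldr (PFun.pr (Lv Ω)) t) ↔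
        (U (opair (r : Ordinal.{u}) s.1) y.1 ↔ U (opair (r : Ordinal.{u}) s'.1) y'.1) := by
    intro s' s c o y o' y' t
    simp only [List.foldr_cons, List.foldr_nil, Fm.sat_and, Fm.sat_ex', Fm.sat_iff, sat_upf,
      sat_numf, nth_pr_zero, nth_pr_succ]
    constructor
    · rintro ⟨z, hz, h⟩
      rw [hz] at h; exact h
    · intro h
      exact ⟨⟨r, nat_lt_full Ω r⟩, rfl, h⟩
  have h4 := fun s' s c o y o' y' t => sat_allT _ _ hB n s' s c o y o' y' t
  simp only [List.foldr_cons, List.foldr_nil] at h4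
  simp only [relF, List.foldr_cons, List.foldr_nil, Fm.sat_and, Fm.sat_ex', sat_zf, Fm.sat_app,
      List.map_cons, List.map_nil, nth_pr_zero, nth_pr_succ, h4, foldr_val, List.map_map]
  constructor
  · rintro ⟨s, hs, h⟩ l hl hlo
    have := h l hl hlo
    rw [hs] at this
    exact this
  · intro h
    exact ⟨⟨0, COrd.pos⟩, rfl, fun l hl hlo => h l hl hlo⟩

theorem iso_def (V : Vocab) : ∃ φ : Fm, ∀ (Ω : Ordinal.{u}) [FullΩ Ω] (o y o' y' t : Lvl Ω),
    φ.Sat (Lv Ω) ([o, y, o', y'].foldr (PFun.pr (Lv Ω)) t) ↔ IsoCode V o.1 y.1 o'.1 y'.1 := by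
  -- env after ex c: v0 = c, v1 = o, v2 = y, v3 = o', v4 = y'
  refine ⟨Fm.ex (conj ([
    -- forall ξ < o, exists η < o', U ⟨ξ,η⟩ c and forall η', U ⟨ξ,η'⟩ c → η' = η
    Fm.all (Fm.imp (Fm.ltv 0 2) (Fm.ex (Fm.and (Fm.ltv 0 5) (Fm.and (upf 1 0 2)
      (Fm.all (Fm.imp (upf 2 0 3) (Fm.eqv 0 1))))))),
    -- forall η < o', exists ξ < o, U ⟨ξ,η⟩ c
    Fm.all (Fm.imp (Fm.ltv 0 4) (Fm.ex (Fm.and (Fm.ltv 0 3) (upf 0 1 2)))),
    -- injective
    Fm.all (Fm.all (Fm.all (Fm.imp (Fm.ltv 2 4) (Fm.imp (Fm.ltv 1 4)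
      (Fm.imp (upf 2 0 3) (Fm.imp (upf 1 0 3) (Fm.eqv 2 1)))))))] ++
    ((List.ofFn fun R : Fin V.nRel => relF R (V.relAr R)) ++
     (List.ofFn fun f : Fin V.nFun => relF (V.nRel + f) (V.funAr f + 1))))), ?_⟩
  intro Ω _ o y o' y' t
  have hrel := fun (r n : ℕ) (c o y o' y' t : Lvl Ω) => sat_relF r n c o y o' y' t
  simp only [List.foldr_cons, List.foldr_nil] at hrel
  simp only [List.foldr_cons, List.foldr_nil, Fm.sat_ex', sat_conj, List.cons_append,
    List.nil_append, List.forall_mem_cons, List.forall_mem_append, List.mem_ofFn,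
    forall_exists_index, forall_apply_eq_imp_iff,
    Fm.sat_and, Fm.sat_all, Fm.sat_imp,
    sat_ltv, sat_upf, Fm.sat_eqv, nth_pr_zero, nth_pr_succ, hrel]
  constructor
  · rintro ⟨c, h1, h2, h3, h4, h5⟩
    have h1' : ∀ ξ : Lvl Ω, ξ < o → ∃ η : Lvl Ω, η < o' ∧ U (opair ξ.1 η.1) c.1 ∧
      ∀ η' : Lvl Ω, U (opair ξ.1 η'.1) c.1 → η' = η := fun ξ hξ => h1 ξ hξ
    choose g hg1 hg2 hg3 using h1'
    classical
    let h : Ordinal.{u} → Ordinal.{u} := fun ξ =>
      if hξ : ξ < o.1 then (g ⟨ξ, hξ.trans o.2⟩ hξ).1 else 0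
    have hh : ∀ ξ (hξ : ξ < o.1), h ξ = (g ⟨ξ, hξ.trans o.2⟩ hξ).1 := fun ξ hξ => dif_pos hξ
    have hU : ∀ ξ (hξ : ξ < o.1), U (opair ξ (h ξ)) c.1 := by
      intro ξ hξ
      rw [hh ξ hξ]
      exact hg2 ⟨ξ, hξ.trans o.2⟩ hξ
    have hlt : ∀ ξ (hξ : ξ < o.1), h ξ < o'.1 := by
      intro ξ hξ
      rw [hh ξ hξ]
      exact hg1 ⟨ξ, hξ.trans o.2⟩ hξ
    refine ⟨h, ⟨fun ξ hξ => hlt ξ hξ, ?_, ?_⟩, ?_, ?_⟩
    · intro ξ hξ ξ' hξ' heq
      have hξ1 : ξ < o.1 := hξ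
      have hξ2 : ξ' < o.1 := hξ'
      have := h3 ⟨ξ, hξ1.trans o.2⟩ ⟨ξ', hξ2.trans o.2⟩ ⟨h ξ, (hlt ξ hξ1).trans o'.2⟩ hξ1 hξ2
        (hU ξ hξ1) (by
          change U (opair ξ' (h ξ)) c.1
          rw [show h ξ = h ξ' from heq]; exact hU ξ' hξ2)
      exact congrArg (fun w : Lvl Ω => w.1) this
    · intro η hη
      have hη1 : η < o'.1 := hη
      obtain ⟨ξ, hξ, hξU⟩ := h2 ⟨η, hη1.trans o'.2⟩ hη1
      refine ⟨ξ.1, hξ, ?_⟩
      have h6 := hg3 ξ hξ ⟨η, hη1.trans o'.2⟩ hξU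
      rw [hh ξ.1 hξ]
      exact (congrArg (fun w : Lvl Ω => w.1) h6).symm
    · intro R ξ hξ
      have h6 := h4 R (List.ofFn fun i => (⟨ξ i, (hξ i).trans o.2⟩,
        ⟨h (ξ i), (hlt _ (hξ i)).trans o'.2⟩)) (by simp) (by
          intro x hx
          rw [List.mem_ofFn] at hx
          obtain ⟨i, rfl⟩ := hx
          exact ⟨hξ i, hU _ (hξ i)⟩)
      rw [List.map_ofFn, List.map_ofFn] at h6
      exact h6
    · intro f η hη ξ hξ
      have h6 := h5 f ((⟨η, hη.trans o.2⟩, ⟨h η, (hlt _ hη).trans o'.2⟩) ::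
        List.ofFn fun i => (⟨ξ i, (hξ i).trans o.2⟩,
        ⟨h (ξ i), (hlt _ (hξ i)).trans o'.2⟩)) (by simp) (by
          intro x hx
          rw [List.mem_cons, List.mem_ofFn] at hx
          rcases hx with rfl | ⟨i, rfl⟩
          · exact ⟨hη, hU _ hη⟩
          · exact ⟨hξ i, hU _ (hξ i)⟩)
      rw [List.map_cons, List.map_cons, List.map_ofFn, List.map_ofFn] at h6
      exact h6
  · rintro ⟨h, ⟨hm, hi, hs⟩, hR, hF⟩
    obtain ⟨c, hc⟩ := full_le (Ω := Ω) (γ := opair o.1 o'.1) (COrd.closed _ o.2 _ o'.2)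
      {ξ | ∃ η < o.1, ξ = opair η (h η)} (by
        rintro ξ ⟨η, hη, rfl⟩
        exact opair_mono hη.le (le_of_lt (hm hη)))
    have hcU : ∀ ξ η : Ordinal.{u}, U (opair ξ η) c.1 ↔ ξ < o.1 ∧ η = h ξ := by
      intro ξ η
      rw [hc]
      constructor
      · rintro ⟨ξ', hξ', heq⟩
        obtain ⟨rfl, rfl⟩ := opair_inj heq
        exact ⟨hξ', rfl⟩
      · rintro ⟨h1, rfl⟩
        exact ⟨ξ, h1, rfl⟩
    have hlist : ∀ l : List (Lvl Ω × Lvl Ω),
        (∀ x ∈ l, x.1 < o ∧ U (opair x.1.1 x.2.1) c.1) →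
        ∀ i : Fin l.length, (l.get i).1.1 < o.1 ∧ (l.get i).2.1 = h (l.get i).1.1 := by
      intro l hl i
      have := hl _ (List.get_mem l i)
      exact ⟨this.1, ((hcU _ _).1 this.2).2⟩
    refine ⟨c, ?_, ?_, ?_, ?_, ?_⟩
    · intro ξ hξ
      have hξ' : ξ.1 < o.1 := hξ
      refine ⟨⟨h ξ.1, lt_trans (hm hξ') o'.2⟩, hm hξ', (hcU _ _).2 ⟨hξ', rfl⟩, ?_⟩
      intro η' hη'
      exact Subtype.ext ((hcU _ _).1 hη').2
    · intro η hη
      obtain ⟨ξ, hξ, hξη⟩ := hs (show η.1 ∈ Iio o'.1 from hη)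
      have hξ' : ξ < o.1 := hξ
      exact ⟨⟨ξ, hξ'.trans o.2⟩, hξ', (hcU _ _).2 ⟨hξ', hξη.symm⟩⟩
    · intro ξ ξ' η h1 h2 h3 h4
      have h3' := ((hcU _ _).1 h3).2
      have h4' := ((hcU _ _).1 h4).2
      exact Subtype.ext (hi h1 h2 (h3'.symm.trans h4'))
    · intro R l hl hlo
      have h5 := hR R (fun i => (l.get (Fin.cast hl.symm i)).1.1) (fun i => (hlist l hlo _).1)
      have e1 : List.ofFn (fun i : Fin (V.relAr R) => (l.get (Fin.cast hl.symm i)).1.1) =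
          l.map fun x => x.1.1 := by
        apply List.ext_get
        · simp [hl]
        · intro n _ _
          simp
      have e2 : List.ofFn (fun i : Fin (V.relAr R) => h (l.get (Fin.cast hl.symm i)).1.1) =
          l.map fun x => x.2.1 := by
        apply List.ext_get
        · simp [hl]
        · intro n h6 h7
          have hn : n < l.length := by simpa using h7
          have := (hlist l hlo ⟨n, hn⟩).2
          simp only [List.get_eq_getElem] at this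
          simp [this]
      rw [e1, e2] at h5
      exact h5
    · intro f l hl hlo
      rcases l with _ | ⟨x, l⟩
      · simp at hl
      · have hl' : l.length = V.funAr f := by simpa using hl
        have hx := hlo x (by simp)
        have hlo' : ∀ z ∈ l, z.1 < o ∧ U (opair z.1.1 z.2.1) c.1 := fun z hz => hlo z (by simp [hz])
        have h5 := hF f x.1.1 hx.1 (fun i => (l.get (Fin.cast hl'.symm i)).1.1)
          (fun i => (hlist l hlo' _).1)
        have e1 : List.ofFn (fun i : Fin (V.funAr f) => (l.get (Fin.cast hl'.symm i)).1.1) =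
            l.map fun x => x.1.1 := by
          apply List.ext_get
          · simp [hl']
          · intro n _ _
            simp
        have e2 : List.ofFn (fun i : Fin (V.funAr f) => h (l.get (Fin.cast hl'.symm i)).1.1) =
            l.map fun x => x.2.1 := by
          apply List.ext_get
          · simp [hl']
          · intro n h6 h7
            have hn : n < l.length := by simpa using h7
            have := (hlist l hlo' ⟨n, hn⟩).2
            simp only [List.get_eq_getElem] at this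
            simp [this]
        rw [e1, e2, ← ((hcU _ _).1 hx.2).2] at h5
        exact h5

end Run7.h505.SO
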