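import Pool.Agent.Run7.h936.SO.Groups

/-!
# Second-order combinators, and the translation of packed formulas over a coded structure
-/

namespace Run7.h505.SO

universe u

open Ordinal Set Run7.h936.SO

variable {V : Vocab}

/-- `x_i` is in the domain of group `b`. -/
def dF (V : Vocab) (b i : ℕ) : Formula V := .sov 1 b ![.var i]
/-- the ternary variable `X^3_k` at `x_i, x_j, x_l` -/
def tF (V : Vocab) (k i j l : ℕ) : Formula V := .sov 3 k ![.var i, .var j, .var l]
/-- existence in group `b` -/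
def exD (b i : ℕ) (F : Formula V) : Formula V := .neg (.all i (.neg (.and (dF V b i) F)))
/-- for all in group `b` -/
def allD (b i : ℕ) (F : Formula V) : Formula V := .all i (.neg (.and (dF V b i) (.neg F)))
/-- implication -/
def impF (F G : Formula V) : Formula V := .neg (.and F (.neg G))
/-- disjunction -/
def orF (F G : Formula V) : Formula V := .neg (.and (.neg F) (.neg G))
/-- equivalence -/
def iffF (F G : Formula V) : Formula V := .and (impF F G) (impF G F)
/-- existential quantifier over an individual variable -/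
def exI (i : ℕ) (F : Formula V) : Formula V := .neg (.all i (.neg F))
/-- existential quantifier over a relation variable -/
def exR (n k : ℕ) (F : Formula V) : Formula V := .neg (.allR n k (.neg F))

section
variable {M : Type u} (A : Str V M) (e : ℕ → M) (W : SOAssign M)

@[simp] theorem sat_eqV (i j : ℕ) :
    (Formula.eq (.var i) (.var j) : Formula V).Sat A e W ↔ e i = e j := Iff.rfl
@[simp] theorem sat_negF (F : Formula V) : (Formula.neg F).Sat A e W ↔ ¬ F.Sat A e W := Iff.rfl
@[simp] theorem sat_andF (F G : Formula V) :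
    (Formula.and F G).Sat A e W ↔ F.Sat A e W ∧ G.Sat A e W := Iff.rfl
@[simp] theorem sat_allI (i : ℕ) (F : Formula V) :
    (Formula.all i F).Sat A e W ↔ ∀ x : M, F.Sat A (Function.update e i x) W := Iff.rfl
@[simp] theorem sat_allRF (n k : ℕ) (F : Formula V) :
    (Formula.allR n k F).Sat A e W ↔ ∀ R : (Fin n → M) → Prop, F.Sat A e (W.upd n k R) := Iff.rfl

@[simp] theorem sat_dF (b i : ℕ) : (dF V b i).Sat A e W ↔ GDom W b (e i) := by
  unfold dF GDom
  change W 1 b (fun t => ((![.var i] : Fin 1 → Term V) t).val A e) ↔ W 1 b ![e i]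
  have : (fun t => ((![.var i] : Fin 1 → Term V) t).val A e) = ![e i] := by
    funext t
    fin_cases t
    rfl
  rw [this]

@[simp] theorem sat_tF (k i j l : ℕ) : (tF V k i j l).Sat A e W ↔ W 3 k ![e i, e j, e l] := by
  unfold tF
  change W 3 k (fun t => ((![.var i, .var j, .var l] : Fin 3 → Term V) t).val A e) ↔ _
  have : (fun t => ((![.var i, .var j, .var l] : Fin 3 → Term V) t).val A e) =
      ![e i, e j, e l] := by
    funext t
    fin_cases t <;> rfl
  rw [this]

@[simp] theorem sat_impF (F G : Formula V) :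
    (impF F G).Sat A e W ↔ (F.Sat A e W → G.Sat A e W) := by
  simp only [impF, sat_negF, sat_andF]; tauto
@[simp] theorem sat_orF (F G : Formula V) :
    (orF F G).Sat A e W ↔ (F.Sat A e W ∨ G.Sat A e W) := by
  simp only [orF, sat_negF, sat_andF]; tauto
@[simp] theorem sat_iffF (F G : Formula V) :
    (iffF F G).Sat A e W ↔ (F.Sat A e W ↔ G.Sat A e W) := by
  simp only [iffF, sat_impF, sat_andF]; tauto
@[simp] theorem sat_exI (i : ℕ) (F : Formula V) :
    (exI i F).Sat A e W ↔ ∃ x : M, F.Sat A (Function.update e i x) W := by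
  simp [exI]
@[simp] theorem sat_exR (n k : ℕ) (F : Formula V) :
    (exR n k F).Sat A e W ↔ ∃ R : (Fin n → M) → Prop, F.Sat A e (W.upd n k R) := by
  simp [exR]

@[simp] theorem sat_exD (b i : ℕ) (F : Formula V) : (exD b i F).Sat A e W ↔
    ∃ x : {x : M // GDom W b x}, F.Sat A (Function.update e i x.1) W := by
  simp only [exD, sat_negF, sat_allI, sat_andF, sat_dF, Function.update_self, not_forall, not_not]
  constructor
  · rintro ⟨x, h1, h2⟩; exact ⟨⟨x, h1⟩, h2⟩
  · rintro ⟨⟨x, h1⟩, h2⟩; exact ⟨x, h1, h2⟩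

@[simp] theorem sat_allD (b i : ℕ) (F : Formula V) : (allD b i F).Sat A e W ↔
    ∀ x : {x : M // GDom W b x}, F.Sat A (Function.update e i x.1) W := by
  simp only [allD, sat_negF, sat_allI, sat_andF, sat_dF, Function.update_self, not_and, not_not]
  constructor
  · intro h x; exact h x.1 x.2
  · intro h x hx; exact h ⟨x, hx⟩

end

/-- the relation `s` of group `b` at `x_i, x_j, x_l` -/
def rF (V : Vocab) (b : ℕ) : ℕ → ℕ → ℕ → ℕ → Formula V
  | 0, i, j, _ => .eq (.var i) (.var j)
  | 1, i, j, l => tF V (6 * b) i j l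
  | 2, i, j, l => tF V (6 * b + 1) i j l
  | 3, i, j, l => tF V (6 * b + 2) i j l
  | 4, i, j, l => tF V (6 * b + 3) i j l
  | 5, i, j, l => tF V (6 * b + 4) i j l
  | 6, i, j, l => tF V (6 * b + 5) i j l
  | _, i, _, _ => .neg (.eq (.var i) (.var i))

theorem sat_rF {M : Type u} (A : Str V M) (e : ℕ → M) (W : SOAssign M) (b s i j l : ℕ)
    (x y z : {x : M // GDom W b x}) (hi : e i = x.1) (hj : e j = y.1) (hl : e l = z.1) :
    (rF V b s i j l).Sat A e W ↔ (grp W b).r s x y z := by
  match s with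
  | 0 => simp [rF, grp, hi, hj, Subtype.ext_iff]
  | 1 => simp [rF, grp, hi, hj, hl]
  | 2 => simp [rF, grp, hi, hj, hl]
  | 3 => simp [rF, grp, hi, hj, hl]
  | 4 => simp [rF, grp, hi, hj, hl]
  | 5 => simp [rF, grp, hi, hj, hl]
  | 6 => simp [rF, grp, hi, hj, hl]
  | s + 7 => simp [rF, grp]

theorem sat_P {M : Type u} (A : Str V M) (e : ℕ → M) (W : SOAssign M) (b i j l : ℕ)
    (x y z : {x : M // GDom W b x}) (hi : e i = x.1) (hj : e j = y.1) (hl : e l = z.1) :
    (tF V (6 * b) i j l).Sat A e W ↔ (grp W b).P x y z := by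
  simp [grp, hi, hj, hl]

theorem upd_self (M : Type u) (e : ℕ → M) (i : ℕ) (x : M) : Function.update e i x i = x :=
  Function.update_self i x e

theorem upd_lt {M : Type u} {e : ℕ → M} {n k : ℕ} {a x : M} (h : e n = a) (hk : n ≠ k) :
    Function.update e k x n = a := by
  rw [Function.update_of_ne hk]; exact h

theorem tr_exists' (V : Vocab) (φ : Fm) (b n : ℕ) : ∃ F : Formula V,
    ∀ (M : Type u) (A : Str V M) (e : ℕ → M) (W : SOAssign M) (a : {x : M // GDom W b x}),
      e n = a.1 → (F.Sat A e W ↔ φ.Sat (grp W b) a) := by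
  induction φ generalizing n with
  | atom s =>
    refine ⟨exD b (n + 1) (exD b (n + 2) (exD b (n + 3) (exD b (n + 4) (exD b (n + 5)
      (exD b (n + 6) (.and (tF V (6 * b) (n + 1) (n + 4) n) (.and (tF V (6 * b) (n + 2) (n + 5) (n + 4))
      (.and (tF V (6 * b) (n + 3) (n + 6) (n + 5)) (rF V b s (n + 1) (n + 2) (n + 3)))))))))), ?_⟩
    intro M A e W a h
    simp only [sat_exD, Fm.Sat]
    refine exists_congr fun x => exists_congr fun y => exists_congr fun z =>
      exists_congr fun t₁ => exists_congr fun t₂ => exists_congr fun t₃ => ?_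
    simp only [sat_andF]
    rw [sat_P A _ W b (n + 1) (n + 4) n x t₁ a, sat_P A _ W b (n + 2) (n + 5) (n + 4) y t₂ t₁,
      sat_P A _ W b (n + 3) (n + 6) (n + 5) z t₃ t₂,
      sat_rF A _ W b s (n + 1) (n + 2) (n + 3) x y z]
    all_goals simp [h]
  | nand φ ψ h1 h2 =>
    obtain ⟨F, hF⟩ := h1 n
    obtain ⟨G, hG⟩ := h2 n
    refine ⟨.neg (.and F G), ?_⟩
    intro M A e W a h
    simp only [sat_negF, sat_andF, Fm.Sat, hF M A e W a h, hG M A e W a h]
  | ex φ ih =>
    obtain ⟨F, hF⟩ := ih (n + 2)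
    refine ⟨exD b (n + 1) (exD b (n + 2) (.and (tF V (6 * b) (n + 1) n (n + 2)) F)), ?_⟩
    intro M A e W a h
    simp only [sat_exD, Fm.Sat]
    refine exists_congr fun x => exists_congr fun z => ?_
    simp only [sat_andF]
    rw [sat_P A _ W b (n + 1) n (n + 2) x a z, hF M A _ W z]
    all_goals simp [h]
  | top φ ih =>
    obtain ⟨F, hF⟩ := ih (n + 1)
    refine ⟨exD b (n + 1) (.and (exD b (n + 2) (tF V (6 * b) (n + 1) (n + 2) n)) F), ?_⟩
    intro M A e W a h
    simp only [sat_exD, Fm.Sat]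
    refine exists_congr fun x => ?_
    simp only [sat_andF, sat_exD]
    rw [hF M A _ W x (by simp)]
    refine and_congr_left fun _ => ?_
    change _ ↔ ∃ t : {x : M // GDom W b x}, W 3 (6 * b) ![x.1, t.1, a.1]
    refine exists_congr fun t => ?_
    rw [sat_P A _ W b (n + 1) (n + 2) n x t a]
    · rfl
    all_goals simp [h]
  | drop φ ih =>
    obtain ⟨F, hF⟩ := ih (n + 5)
    refine ⟨exD b (n + 1) (exD b (n + 2) (exD b (n + 3) (exD b (n + 4) (exD b (n + 5)
      (.and (tF V (6 * b) (n + 1) (n + 2) n) (.and (tF V (6 * b) (n + 3) (n + 4) (n + 2))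
      (.and (tF V (6 * b) (n + 1) (n + 4) (n + 5)) F))))))), ?_⟩
    intro M A e W a h
    simp only [sat_exD, Fm.Sat]
    refine exists_congr fun x => exists_congr fun t => exists_congr fun y =>
      exists_congr fun c => exists_congr fun z => ?_
    simp only [sat_andF]
    rw [sat_P A _ W b (n + 1) (n + 2) n x t a, sat_P A _ W b (n + 3) (n + 4) (n + 2) y c t,
      sat_P A _ W b (n + 1) (n + 4) (n + 5) x c z, hF M A _ W z]
    all_goals simp [h]

/-- PIECE O0. -/
theorem tr_exists (V : Vocab) (φ : Fm) (b n : ℕ) : ∃ F : Formula V,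
    ∀ (M : Type u) (A : Str V M) (e : ℕ → M) (W : SOAssign M) (h : GDom W b (e n)),
      F.Sat A e W ↔ φ.Sat (grp W b) ⟨e n, h⟩ := by
  obtain ⟨F, hF⟩ := tr_exists'.{u} V φ b n
  exact ⟨F, fun M A e W h => hF M A e W ⟨e n, h⟩ rfl⟩

end Run7.h505.SO
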