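import Pool.Agent.Run7.h505.SO.O0

/-!
# Good groups: the groups that code a level
-/

namespace Run7.h505.SO

universe u v

open Ordinal Set Run7.h936.SO

section
variable {A : Type v} (N : FStr A)

/-- the order -/
def glt (x y : A) : Prop := N.r 2 x y x

/-- `max x y < max x' y'` -/
def gmx (x y x' y' : A) : Prop := (glt N x x' ∨ glt N x y') ∧ (glt N y x' ∨ glt N y y')

/-- the Goedel order -/
def ggl (x y x' y' : A) : Prop :=
  gmx N x y x' y' ∨ (¬ gmx N x y x' y' ∧ ¬ gmx N x' y' x y ∧ (glt N x x' ∨ (x = x' ∧ glt N y y')))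

/-- the first-order and second-order properties of a good group -/
structure Good : Prop where
  ne : ∃ _ : A, True
  ind : ∀ x y z z', N.r 2 x y z → N.r 2 x y z'
  tri : ∀ x y, glt N x y ∨ x = y ∨ glt N y x
  wf : ∀ X : A → Prop, (∃ x, X x) → ∃ x, X x ∧ ∀ y, X y → ¬ glt N y x
  tot : ∀ x y, ∃ z, N.P x y z
  sur : ∀ z, ∃ x y, N.P x y z
  god : ∀ x y z x' y' z', N.P x y z → N.P x' y' z' → (glt N z z' ↔ ggl N x y x' y')
  sig : ∀ a, Fm.sigma.Sat N a

end

section
variable {A : Type u} {N : FStr A}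

theorem Good.isWO (h : Good N) : IsWellOrder A (glt N) where
  trichotomous x y h1 h2 := by
    rcases h.tri x y with h3 | h3 | h3
    · exact absurd h3 h1
    · exact h3
    · exact absurd h3 h2
  wf := by
    rw [WellFounded.wellFounded_iff_has_min]
    intro s ⟨x, hx⟩
    obtain ⟨y, hy, hy'⟩ := h.wf (fun z => z ∈ s) ⟨x, hx⟩
    exact ⟨y, hy, hy'⟩

theorem gmx_iff {δ : Ordinal.{u}} {c : A ≃ Lvl δ} (hc : ∀ x y, glt N x y ↔ (c x).1 < (c y).1)
    (x y x' y' : A) :
    gmx N x y x' y' ↔ max (c x).1 (c y).1 < max (c x').1 (c y').1 := by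
  rw [gmx, hc, hc, hc, hc, max_lt_iff, lt_max_iff, lt_max_iff]

theorem ggl_iff {δ : Ordinal.{u}} {c : A ≃ Lvl δ} (hc : ∀ x y, glt N x y ↔ (c x).1 < (c y).1)
    (x y x' y' : A) :
    ggl N x y x' y' ↔ GLt ((c x).1, (c y).1) ((c x').1, (c y').1) := by
  have hxx : x = x' ↔ (c x).1 = (c x').1 := by
    rw [← Subtype.ext_iff]; exact c.injective.eq_iff.symm
  rw [ggl, gmx_iff hc, gmx_iff hc, hc, hc, hxx, GLt]
  simp only
  constructor
  · rintro (h | ⟨h1, h2, h3⟩)
    · exact Or.inl h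
    · exact Or.inr ⟨le_antisymm (not_lt.1 h2) (not_lt.1 h1), h3⟩
  · rintro (h | ⟨h1, h3⟩)
    · exact Or.inl h
    · exact Or.inr ⟨by rw [h1]; exact lt_irrefl _, by rw [h1]; exact lt_irrefl _, h3⟩

/-- The level isomorphism of a good structure. -/
theorem Good.exists_c (h : Good N) : ∃ (δ : Ordinal.{u}) (c : A ≃ Lvl δ),
    ∀ x y, glt N x y ↔ (c x).1 < (c y).1 := by
  have := h.isWO
  refine ⟨Ordinal.type (glt N), (Ordinal.enum (glt N)).toEquiv.symm, ?_⟩
  intro x y
  exact ((Ordinal.enum (glt N)).symm.map_rel_iff (a := x) (b := y)).symm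

variable (N) in
/-- Good structures whose atoms `0`, `1` and whose `Q` are standard. -/
structure Normal : Prop where
  Q : ∀ x a, N.Q x a ↔ ∃ t, N.P x t a
  r0 : ∀ x y z, N.r 0 x y z ↔ x = y
  r1 : ∀ x y z, N.r 1 x y z ↔ N.P x y z
  r7 : ∀ s x y z, ¬ N.r (s + 7) x y z

theorem Good.uniq (h : Good N) {δ : Ordinal.{u}} {c : A ≃ Lvl δ}
    (hc : ∀ x y, glt N x y ↔ (c x).1 < (c y).1) {x y z z' : A} (h1 : N.P x y z) (h2 : N.P x y z') :
    z = z' := by
  have h3 := h.god _ _ _ _ _ _ h1 h2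
  have h4 := h.god _ _ _ _ _ _ h2 h1
  rw [ggl_iff hc] at h3 h4
  rcases h.tri z z' with h5 | h5 | h5
  · exact absurd (h3.1 h5) (GLt.irrefl _)
  · exact h5
  · exact absurd (h4.1 h5) (GLt.irrefl _)

theorem Good.inj (h : Good N) {δ : Ordinal.{u}} {c : A ≃ Lvl δ}
    (hc : ∀ x y, glt N x y ↔ (c x).1 < (c y).1) {x y x' y' z : A} (h1 : N.P x y z)
    (h2 : N.P x' y' z) : x = x' ∧ y = y' := by
  have h3 := h.god _ _ _ _ _ _ h1 h2
  have h4 := h.god _ _ _ _ _ _ h2 h1
  rw [ggl_iff hc, hc] at h3 h4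
  rcases GLt.trichotomy ((c x).1, (c y).1) ((c x').1, (c y').1) with h5 | h5 | h5
  · exact absurd (h3.2 h5) (lt_irrefl _)
  · rw [Prod.mk.injEq] at h5
    exact ⟨c.injective (Subtype.ext h5.1), c.injective (Subtype.ext h5.2)⟩
  · exact absurd (h4.2 h5) (lt_irrefl _)

/-- The pairing functions of a good structure. -/
@[reducible] noncomputable def Good.std (h : Good N) (hn : Normal N) {δ : Ordinal.{u}} {c : A ≃ Lvl δ}
    (hc : ∀ x y, glt N x y ↔ (c x).1 < (c y).1) : Std N :=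
  have hP : ∀ x y z, N.P x y z ↔ Classical.choose (h.tot x y) = z := fun x y z =>
    ⟨fun h1 => h.uniq hc (Classical.choose_spec (h.tot x y)) h1,
      fun h1 => h1 ▸ Classical.choose_spec (h.tot x y)⟩
  have hf : ∀ z, N.P (Classical.choose (h.sur z))
      (Classical.choose (Classical.choose_spec (h.sur z))) z := fun z =>
    Classical.choose_spec (Classical.choose_spec (h.sur z))
  { pr := fun x y => Classical.choose (h.tot x y)
    f1 := fun z => Classical.choose (h.sur z)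
    f2 := fun z => Classical.choose (Classical.choose_spec (h.sur z))
    tp := fun z => Classical.choose (h.sur z)
    z0 := Classical.choose h.ne
    f1_pr := fun x y => (h.inj hc (hf _) (Classical.choose_spec (h.tot x y))).1
    f2_pr := fun x y => (h.inj hc (hf _) (Classical.choose_spec (h.tot x y))).2
    pr_f := fun z => (hP _ _ _).1 (hf z)
    P_iff := hP
    Q_iff := fun x a => by
      rw [hn.Q]
      constructor
      · rintro ⟨t, ht⟩; exact (h.inj hc (hf _) ht).1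
      · rintro rfl; exact ⟨_, hf a⟩
    tp_eq := fun a => rfl
    r0 := hn.r0
    r1 := fun x y z => by rw [hn.r1, hP] }

/-- A good normal structure is isomorphic to a level. -/
theorem Good.exists_level (h : Good N) (hn : Normal N) : ∃ (δ : Ordinal.{u}) (c : A ≃ Lvl δ),
    COrd δ ∧ (∀ x y z, N.P x y z ↔ (Lv δ).P (c x) (c y) (c z)) ∧
      ∀ s x y z, N.r s x y z ↔ (Lv δ).r s (c x) (c y) (c z) := by
  obtain ⟨δ, c, hc⟩ := h.exists_c
  let _ := h.std hn hc
  have hlt : ∀ x y z, N.r 2 x y z ↔ (c x).1 < (c y).1 := by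
    intro x y z
    rw [← hc]
    exact ⟨fun h1 => h.ind _ _ _ _ h1, fun h1 => h.ind _ _ _ _ h1⟩
  obtain ⟨a₀, _⟩ := h.ne
  have hmono : PrMono N c := by
    intro x y x' y'
    rw [← hc, ← ggl_iff hc]
    exact h.god _ _ _ _ _ _ ((PFun.P_iff x y _).2 rfl) ((PFun.P_iff x' y' _).2 rfl)
  have hcord : COrd δ := ⟨hmono.closed, (zero_le).trans_lt (c a₀).2⟩
  have hcl : Clauses N (fun x => (c x).1) := (sat_sigma hlt a₀).1 (h.sig a₀)
  refine ⟨δ, c, hcord, ?_, ?_⟩
  · intro x y z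
    rw [PFun.P_iff, PFun.P_iff, ← hmono.cpr]
    exact c.injective.eq_iff.symm
  · intro s x y z
    exact unique_all hmono hcl hlt hn.r7 s x y z

/-- The structures isomorphic to a level are good. -/
theorem good_of_level (hn : Normal N) {δ : Ordinal.{u}} {c : A ≃ Lvl δ} (hδ : COrd δ)
    (hP : ∀ x y z, N.P x y z ↔ (Lv δ).P (c x) (c y) (c z))
    (hr : ∀ s x y z, N.r s x y z ↔ (Lv δ).r s (c x) (c y) (c z)) : Good N := by
  have hc : ∀ x y, glt N x y ↔ (c x).1 < (c y).1 := fun x y => hr 2 x y x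
  refine ⟨⟨c.symm ⟨0, COrd.pos⟩, trivial⟩, ?_, ?_, ?_, ?_, ?_, ?_, ?_⟩
  · intro x y z z' h
    rw [hr] at h ⊢
    exact h
  · intro x y
    rw [hc, hc]
    rcases lt_trichotomy (c x).1 (c y).1 with h | h | h
    · exact Or.inl h
    · exact Or.inr (Or.inl (c.injective (Subtype.ext h)))
    · exact Or.inr (Or.inr h)
  · rintro X ⟨x, hx⟩
    obtain ⟨m, hm, hmin⟩ := WellFounded.has_min (wellFounded_lt (α := Ordinal.{u}))
      {ξ | ∃ y, X y ∧ (c y).1 = ξ} ⟨(c x).1, x, hx, rfl⟩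
    obtain ⟨y, hy, hym⟩ := hm
    refine ⟨y, hy, fun z hz h => ?_⟩
    rw [hc, hym] at h
    exact hmin _ ⟨z, hz, rfl⟩ h
  · intro x y
    refine ⟨c.symm (PFun.pr (Lv δ) (c x) (c y)), ?_⟩
    rw [hP, Equiv.apply_symm_apply, PFun.P_iff]
  · intro z
    refine ⟨c.symm (PFun.f1 (Lv δ) (c z)), c.symm (PFun.f2 (Lv δ) (c z)), ?_⟩
    rw [hP, Equiv.apply_symm_apply, Equiv.apply_symm_apply, PFun.P_iff, PFun.pr_f]
  · intro x y z x' y' z' h1 h2
    rw [ggl_iff hc, hc]
    rw [hP] at h1 h2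
    have h1' : opair (c x).1 (c y).1 = (c z).1 := h1
    have h2' : opair (c x').1 (c y').1 = (c z').1 := h2
    rw [← h1', ← h2', opair_lt_iff]
  · intro a
    rw [Fm.sat_iso c hP ?_ hr]
    · rw [sat_sigma (c := Equiv.refl (Lvl δ)) (fun x y z => Iff.rfl)]
      exact clauses_Lv
    · intro x y
      rw [hn.Q]
      change _ ↔ of1 (c y).1 = (c x).1
      constructor
      · rintro ⟨t, ht⟩
        rw [hP] at ht
        have ht' : opair (c x).1 (c t).1 = (c y).1 := ht
        rw [← ht', of1_opair]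
      · intro h
        refine ⟨c.symm (PFun.f2 (Lv δ) (c y)), ?_⟩
        rw [hP, Equiv.apply_symm_apply]
        change opair (c x).1 (of2 (c y).1) = (c y).1
        rw [← h, opair_of]

end

/-- The groups are normal. -/
theorem normal_grp {M : Type u} (W : SOAssign M) (b : ℕ) : Normal (grp W b) where
  Q _ _ := Iff.rfl
  r0 _ _ _ := Iff.rfl
  r1 _ _ _ := Iff.rfl
  r7 s _ _ _ := by simp [grp]

theorem isLv_iff {M : Type u} (W : SOAssign M) (b : ℕ) :
    (∃ (δ : Ordinal.{u}) (c : {x : M // GDom W b x} ≃ Lvl δ), IsLv W b δ c) ↔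
      Good (grp W b) := by
  constructor
  · rintro ⟨δ, c, h⟩
    exact good_of_level (normal_grp W b) h.cord h.P h.r
  · intro h
    obtain ⟨δ, c, h1, h2, h3⟩ := h.exists_level (normal_grp W b)
    exact ⟨δ, c, ⟨h1, h2, h3⟩⟩

variable {V : Vocab}

/-- `x_i < x_j` in group `b` -/
def ltF (V : Vocab) (b i j : ℕ) : Formula V := tF V (6 * b + 1) i j i
def mxF (V : Vocab) (b i j k l : ℕ) : Formula V :=
  .and (orF (ltF V b i k) (ltF V b i l)) (orF (ltF V b j k) (ltF V b j l))
def glF (V : Vocab) (b i j k l : ℕ) : Formula V :=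
  orF (mxF V b i j k l) (.and (.neg (mxF V b i j k l)) (.and (.neg (mxF V b k l i j))
    (orF (ltF V b i k) (.and (.eq (.var i) (.var k)) (ltF V b j l)))))

section
variable {M : Type u} (A : Str V M) (e : ℕ → M) (W : SOAssign M) (b : ℕ)

theorem sat_ltF (i j : ℕ) (x y : {x : M // GDom W b x}) (hi : e i = x.1) (hj : e j = y.1) :
    (ltF V b i j).Sat A e W ↔ glt (grp W b) x y := by
  simp [ltF, glt, grp, hi, hj]

theorem sat_mxF (i j k l : ℕ) (x y x' y' : {x : M // GDom W b x}) (hi : e i = x.1)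
    (hj : e j = y.1) (hk : e k = x'.1) (hl : e l = y'.1) :
    (mxF V b i j k l).Sat A e W ↔ gmx (grp W b) x y x' y' := by
  simp only [mxF, gmx, sat_andF, sat_orF, sat_ltF A e W b i k x x' hi hk,
    sat_ltF A e W b i l x y' hi hl, sat_ltF A e W b j k y x' hj hk, sat_ltF A e W b j l y y' hj hl]

theorem sat_glF (i j k l : ℕ) (x y x' y' : {x : M // GDom W b x}) (hi : e i = x.1)
    (hj : e j = y.1) (hk : e k = x'.1) (hl : e l = y'.1) :
    (glF V b i j k l).Sat A e W ↔ ggl (grp W b) x y x' y' := by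
  simp only [glF, ggl, sat_andF, sat_orF, sat_negF, sat_eqV,
    sat_mxF A e W b i j k l x y x' y' hi hj hk hl, sat_mxF A e W b k l i j x' y' x y hk hl hi hj,
    sat_ltF A e W b i k x x' hi hk, sat_ltF A e W b j l y y' hj hl, hi, hk, Subtype.ext_iff]

end

theorem upd_ne' {M : Type u} (W : SOAssign M) {n k : ℕ} (R : (Fin n → M) → Prop) {n' k' : ℕ}
    (h : n' ≠ n ∨ k' ≠ k) : (W.upd n k R) n' k' = W n' k' := by
  unfold SOAssign.upd
  by_cases h1 : n' = n
  · subst h1
    rw [dif_pos rfl]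
    have hk : k' ≠ k := by
      rcases h with h | h
      · exact absurd rfl h
      · exact h
    exact Function.update_of_ne hk _ _
  · rw [dif_neg h1]

theorem upd_same' {M : Type u} (W : SOAssign M) {n k : ℕ} (R : (Fin n → M) → Prop) :
    (W.upd n k R) n k = R := by
  unfold SOAssign.upd
  simp

/-- Well-foundedness, with the unary variable `X^1_{b+1}`. -/
def wfF (V : Vocab) (b : ℕ) : Formula V :=
  .allR 1 (b + 1) (impF (exD b 0 (dF V (b + 1) 0))
    (exD b 0 (.and (dF V (b + 1) 0) (allD b 1 (impF (dF V (b + 1) 1) (.neg (ltF V b 1 0)))))))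

theorem sat_wfF {M : Type u} (A : Str V M) (e : ℕ → M) (W : SOAssign M) (b : ℕ) :
    (wfF V b).Sat A e W ↔ ∀ X : {x : M // GDom W b x} → Prop, (∃ x, X x) →
      ∃ x, X x ∧ ∀ y, X y → ¬ glt (grp W b) y x := by
  have hd : ∀ (R : (Fin 1 → M) → Prop) (x : M), GDom (W.upd 1 (b + 1) R) b x ↔ GDom W b x := by
    intro R x
    unfold GDom
    rw [upd_ne' W R (Or.inr (by omega))]
  have hd' : ∀ (R : (Fin 1 → M) → Prop) (x : M), GDom (W.upd 1 (b + 1) R) (b + 1) x ↔ R ![x] := by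
    intro R x
    unfold GDom
    rw [upd_same']
  have hlt : ∀ (R : (Fin 1 → M) → Prop) (k : ℕ), (W.upd 1 (b + 1) R) 3 k = W 3 k := by
    intro R k
    exact upd_ne' W R (Or.inl (by omega))
  have key : ∀ (R : (Fin 1 → M) → Prop),
      ((impF (exD b 0 (dF V (b + 1) 0))
    (exD b 0 (.and (dF V (b + 1) 0) (allD b 1 (impF (dF V (b + 1) 1)
      (.neg (ltF V b 1 0))))))) : Formula V).Sat A e (W.upd 1 (b + 1) R) ↔
      ((∃ x : {x : M // GDom W b x}, R ![x.1]) →
      ∃ x : {x : M // GDom W b x}, R ![x.1] ∧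
        ∀ y : {x : M // GDom W b x}, R ![y.1] → ¬ glt (grp W b) y x) := by
    intro R
    simp only [sat_impF, sat_exD, sat_allD, sat_andF, sat_negF, sat_dF, hd', ltF, sat_tF, hlt]
    constructor
    · intro h hx
      obtain ⟨x, hx⟩ := hx
      obtain ⟨y, hy1, hy2⟩ := h ⟨⟨x.1, (hd R _).2 x.2⟩, by simpa using hx⟩
      refine ⟨⟨y.1, (hd R _).1 y.2⟩, by simpa using hy1, ?_⟩
      intro z hz hlt'
      apply hy2 ⟨z.1, (hd R _).2 z.2⟩ (by simpa using hz)
      simpa [glt, grp] using hlt'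
    · intro h hx
      obtain ⟨x, hx⟩ := hx
      obtain ⟨y, hy1, hy2⟩ := h ⟨⟨x.1, (hd R _).1 x.2⟩, by simpa using hx⟩
      refine ⟨⟨y.1, (hd R _).2 y.2⟩, by simpa using hy1, ?_⟩
      intro z hz hlt'
      apply hy2 ⟨z.1, (hd R _).1 z.2⟩ (by simpa using hz)
      simpa [glt, grp] using hlt'
  unfold wfF
  rw [sat_allRF]
  constructor
  · intro h X hX
    have h1 := (key (fun t => ∃ ht : GDom W b (t 0), X ⟨t 0, ht⟩)).1 (h _)
    obtain ⟨x, hx⟩ := hX
    obtain ⟨y, hy1, hy2⟩ := h1 ⟨x, x.2, hx⟩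
    obtain ⟨_, hy3⟩ := hy1
    exact ⟨y, hy3, fun z hz => hy2 z ⟨z.2, hz⟩⟩
  · intro h R
    rw [key]
    intro hx
    exact h (fun x => R ![x.1]) hx

/-- The formula expressing that group `b` is good. -/
def goodF (V : Vocab) (b : ℕ) (S : Formula V) : Formula V :=
  .and (exD b 0 (.eq (.var 0) (.var 0)))
  (.and (allD b 0 (allD b 1 (allD b 2 (allD b 3 (impF (tF V (6 * b + 1) 0 1 2)
    (tF V (6 * b + 1) 0 1 3))))))
  (.and (allD b 0 (allD b 1 (orF (ltF V b 0 1) (orF (.eq (.var 0) (.var 1)) (ltF V b 1 0)))))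
  (.and (wfF V b)
  (.and (allD b 0 (allD b 1 (exD b 2 (tF V (6 * b) 0 1 2))))
  (.and (allD b 2 (exD b 0 (exD b 1 (tF V (6 * b) 0 1 2))))
  (.and (allD b 0 (allD b 1 (allD b 2 (allD b 3 (allD b 4 (allD b 5
    (impF (tF V (6 * b) 0 1 2) (impF (tF V (6 * b) 3 4 5)
      (iffF (ltF V b 2 5) (glF V b 0 1 3 4))))))))))
  (allD b 0 S)))))))

/-- PIECE O1. -/
theorem good_exists (V : Vocab) (b : ℕ) : ∃ G : Formula V,
    ∀ (M : Type u) (A : Str V M) (e : ℕ → M) (W : SOAssign M),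
      G.Sat A e W ↔ ∃ (δ : Ordinal.{u}) (c : {x : M // GDom W b x} ≃ Lvl δ), IsLv W b δ c := by
  obtain ⟨S, hS⟩ := tr_exists'.{u} V Fm.sigma b 0
  refine ⟨goodF V b S, ?_⟩
  intro M A e W
  rw [isLv_iff]
  simp only [goodF, sat_andF, sat_allD, sat_exD, sat_impF, sat_iffF, sat_orF, sat_wfF, sat_eqV]
  constructor
  · rintro ⟨h1, h2, h3, h4, h5, h6, h7, h8⟩
    refine ⟨?_, ?_, ?_, ?_, ?_, ?_, ?_, ?_⟩
    · obtain ⟨x, _⟩ := h1; exact ⟨x, trivial⟩
    · intro x y z z' h
      have := h2 x y z z'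
      rw [sat_tF, sat_tF] at this
      simp only [Function.update_apply] at this
      exact this h
    · intro x y
      have := h3 x y
      rw [sat_ltF A _ W b 0 1 x y (by simp) (by simp),
        sat_ltF A _ W b 1 0 y x (by simp) (by simp)] at this
      simpa [Function.update_apply, Subtype.ext_iff] using this
    · exact h4
    · intro x y
      obtain ⟨z, hz⟩ := h5 x y
      rw [sat_P A _ W b 0 1 2 x y z (by simp) (by simp) (by simp)] at hz
      exact ⟨z, hz⟩
    · intro z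
      obtain ⟨x, y, hz⟩ := h6 z
      rw [sat_P A _ W b 0 1 2 x y z (by simp) (by simp) (by simp)] at hz
      exact ⟨x, y, hz⟩
    · intro x y z x' y' z' k1 k2
      have := h7 x y z x' y' z'
      rw [sat_P A _ W b 0 1 2 x y z (by simp) (by simp) (by simp),
        sat_P A _ W b 3 4 5 x' y' z' (by simp) (by simp) (by simp),
        sat_ltF A _ W b 2 5 z z' (by simp) (by simp),
        sat_glF A _ W b 0 1 3 4 x y x' y' (by simp) (by simp) (by simp) (by simp)] at this
      exact this k1 k2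
    · intro a
      have := h8 a
      rw [hS M A _ W a (by simp)] at this
      exact this
  · intro h
    refine ⟨?_, ?_, ?_, ?_, ?_, ?_, ?_, ?_⟩
    · obtain ⟨x, _⟩ := h.ne; exact ⟨x, trivial⟩
    · intro x y z z' k
      have := h.ind x y z z'
      rw [sat_tF] at k ⊢
      simp only [Function.update_apply] at k ⊢
      exact this k
    · intro x y
      rw [sat_ltF A _ W b 0 1 x y (by simp) (by simp),
        sat_ltF A _ W b 1 0 y x (by simp) (by simp)]
      have := h.tri x y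
      simpa [Function.update_apply, Subtype.ext_iff] using this
    · exact h.wf
    · intro x y
      obtain ⟨z, hz⟩ := h.tot x y
      refine ⟨z, ?_⟩
      rw [sat_P A _ W b 0 1 2 x y z (by simp) (by simp) (by simp)]
      exact hz
    · intro z
      obtain ⟨x, y, hz⟩ := h.sur z
      refine ⟨x, y, ?_⟩
      rw [sat_P A _ W b 0 1 2 x y z (by simp) (by simp) (by simp)]
      exact hz
    · intro x y z x' y' z'
      rw [sat_P A _ W b 0 1 2 x y z (by simp) (by simp) (by simp),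
        sat_P A _ W b 3 4 5 x' y' z' (by simp) (by simp) (by simp),
        sat_ltF A _ W b 2 5 z z' (by simp) (by simp),
        sat_glF A _ W b 0 1 3 4 x y x' y' (by simp) (by simp) (by simp) (by simp)]
      exact h.god x y z x' y' z'
    · intro a
      rw [hS M A _ W a (by simp)]
      exact h.sig a

end Run7.h505.SO
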