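import Pool.Agent.Run7.h505.SO.O1

/-!
# Equality of ordinals in two different groups
-/

namespace Run7.h505.SO

universe u v

open Ordinal Set Run7.h936.SO

variable {V : Vocab}

/-- the binary variable `X^2_k` at `x_i, x_j` -/
def bF (V : Vocab) (k i j : ℕ) : Formula V := .sov 2 k ![.var i, .var j]

@[simp] theorem sat_bF {M : Type u} (A : Str V M) (e : ℕ → M) (W : SOAssign M) (k i j : ℕ) :
    (bF V k i j).Sat A e W ↔ W 2 k ![e i, e j] := by
  unfold bF
  change W 2 k (fun t => ((![.var i, .var j] : Fin 2 → Term V) t).val A e) ↔ _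
  have : (fun t => ((![.var i, .var j] : Fin 2 → Term V) t).val A e) = ![e i, e j] := by
    funext t
    fin_cases t <;> rfl
  rw [this]

/-- The body: `X^2_0` is an isomorphism between the initial segments. Variables `m, m+1, m+2, m+3`
are fresh. -/
def sameF (V : Vocab) (b b' i j m : ℕ) : Formula V :=
  .and (allD b m (impF (ltF V b m i) (exD b' (m + 1) (.and (ltF V b' (m + 1) j) (bF V 0 m (m + 1))))))
  (.and (allD b' (m + 1) (impF (ltF V b' (m + 1) j) (exD b m (.and (ltF V b m i)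
    (bF V 0 m (m + 1))))))
  (allD b m (allD b (m + 2) (allD b' (m + 1) (allD b' (m + 3)
    (impF (.and (ltF V b m i) (.and (ltF V b (m + 2) i) (.and (ltF V b' (m + 1) j)
      (.and (ltF V b' (m + 3) j) (.and (bF V 0 m (m + 1)) (bF V 0 (m + 2) (m + 3)))))))
      (iffF (ltF V b m (m + 2)) (ltF V b' (m + 1) (m + 3)))))))))

theorem sat_sameF {M : Type u} (A : Str V M) (e : ℕ → M) (W : SOAssign M) (b b' i j m : ℕ)
    (hi : i < m) (hj : j < m) (x₀ : {x : M // GDom W b x}) (y₀ : {x : M // GDom W b' x})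
    (hx : e i = x₀.1) (hy : e j = y₀.1) :
    (sameF V b b' i j m).Sat A e W ↔
      (∀ x : {x : M // GDom W b x}, glt (grp W b) x x₀ → ∃ y : {x : M // GDom W b' x},
        glt (grp W b') y y₀ ∧ W 2 0 ![x.1, y.1]) ∧
      (∀ y : {x : M // GDom W b' x}, glt (grp W b') y y₀ → ∃ x : {x : M // GDom W b x},
        glt (grp W b) x x₀ ∧ W 2 0 ![x.1, y.1]) ∧
      (∀ x x' : {x : M // GDom W b x}, ∀ y y' : {x : M // GDom W b' x},
        glt (grp W b) x x₀ → glt (grp W b) x' x₀ → glt (grp W b') y y₀ → glt (grp W b') y' y₀ →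
        W 2 0 ![x.1, y.1] → W 2 0 ![x'.1, y'.1] →
        (glt (grp W b) x x' ↔ glt (grp W b') y y')) := by
  unfold sameF
  rw [sat_andF, sat_andF]
  have n0 : i ≠ m := by omega
  have n1 : i ≠ m + 1 := by omega
  have n2 : i ≠ m + 2 := by omega
  have n3 : i ≠ m + 3 := by omega
  have k0 : j ≠ m := by omega
  have k1 : j ≠ m + 1 := by omega
  have k2 : j ≠ m + 2 := by omega
  have k3 : j ≠ m + 3 := by omega
  refine and_congr ?_ (and_congr ?_ ?_)
  · rw [sat_allD]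
    refine forall_congr' fun x => ?_
    rw [sat_impF, sat_exD, sat_ltF A _ W b m i x x₀ (by simp) (by simp [n0, hx])]
    refine imp_congr_right fun _ => exists_congr fun y => ?_
    rw [sat_andF, sat_ltF A _ W b' (m + 1) j y y₀ (by simp) (by simp [k0, k1, hy]), sat_bF]
    simp
  · rw [sat_allD]
    refine forall_congr' fun y => ?_
    rw [sat_impF, sat_exD, sat_ltF A _ W b' (m + 1) j y y₀ (by simp) (by simp [k1, hy])]
    refine imp_congr_right fun _ => exists_congr fun x => ?_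
    rw [sat_andF, sat_ltF A _ W b m i x x₀ (by simp) (by simp [n0, n1, hx]), sat_bF]
    simp
  · rw [sat_allD]
    refine forall_congr' fun x => ?_
    rw [sat_allD]
    refine forall_congr' fun x' => ?_
    rw [sat_allD]
    refine forall_congr' fun y => ?_
    rw [sat_allD]
    refine forall_congr' fun y' => ?_
    simp only [sat_impF, sat_andF, sat_iffF, sat_bF]
    rw [sat_ltF A _ W b m i x x₀ (by simp) (by simp [n0, n1, n2, n3, hx]),
      sat_ltF A _ W b (m + 2) i x' x₀ (by simp) (by simp [n0, n1, n2, n3, hx]),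
      sat_ltF A _ W b' (m + 1) j y y₀ (by simp) (by simp [k0, k1, k2, k3, hy]),
      sat_ltF A _ W b' (m + 3) j y' y₀ (by simp) (by simp [k0, k1, k2, k3, hy]),
      sat_ltF A _ W b m (m + 2) x x' (by simp) (by simp),
      sat_ltF A _ W b' (m + 1) (m + 3) y y' (by simp) (by simp)]
    simp

/-- Initial segments isomorphic through a relation determine the same ordinal. -/
theorem same_core {A B : Type u} {δ δ' : Ordinal.{u}} (c : A ≃ Lvl δ) (c' : B ≃ Lvl δ')
    (x₀ : A) (y₀ : B) (R : A → B → Prop)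
    (h1 : ∀ x, (c x).1 < (c x₀).1 → ∃ y, (c' y).1 < (c' y₀).1 ∧ R x y)
    (h2 : ∀ y, (c' y).1 < (c' y₀).1 → ∃ x, (c x).1 < (c x₀).1 ∧ R x y)
    (h3 : ∀ x x' y y', (c x).1 < (c x₀).1 → (c x').1 < (c x₀).1 → (c' y).1 < (c' y₀).1 →
      (c' y').1 < (c' y₀).1 → R x y → R x' y' → ((c x).1 < (c x').1 ↔ (c' y).1 < (c' y').1)) :
    (c x₀).1 = (c' y₀).1 := by
  have key : ∀ ξ : Ordinal.{u}, ∀ x y, (c x).1 = ξ → (c x).1 < (c x₀).1 → (c' y).1 < (c' y₀).1 →
      R x y → (c' y).1 = ξ := by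
    intro ξ
    induction ξ using WellFoundedLT.induction with
    | _ ξ ih =>
      intro x y hx hx0 hy0 hR
      rcases lt_trichotomy (c' y).1 ξ with h | h | h
      · exfalso
        have hlt : (c' y).1 < δ := by
          rw [← hx] at h; exact h.trans (c x).2
        have e1 : (c (c.symm ⟨(c' y).1, hlt⟩)).1 = (c' y).1 := by simp
        have hx'0 : (c (c.symm ⟨(c' y).1, hlt⟩)).1 < (c x₀).1 := by
          rw [e1]; rw [← hx] at h; exact h.trans hx0
        obtain ⟨y', hy', hR'⟩ := h1 _ hx'0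
        have h4 := ih _ h _ y' e1 hx'0 hy' hR'
        have h5 : y' = y := c'.injective (Subtype.ext h4)
        subst h5
        have h6 := (h3 _ _ _ _ hx'0 hx0 hy0 hy0 hR' hR).1 (by rw [e1, hx]; exact h)
        exact lt_irrefl _ h6
      · exact h
      · exfalso
        have hlt : ξ < δ' := h.trans (c' y).2
        have e1 : (c' (c'.symm ⟨ξ, hlt⟩)).1 = ξ := by simp
        have hy'0 : (c' (c'.symm ⟨ξ, hlt⟩)).1 < (c' y₀).1 := by
          rw [e1]; exact h.trans hy0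
        obtain ⟨x', hx', hR'⟩ := h2 _ hy'0
        have h4 : (c x').1 < (c x).1 := (h3 _ _ _ _ hx' hx0 hy'0 hy0 hR' hR).2 (by rw [e1]; exact h)
        rw [hx] at h4
        have h5 := ih _ h4 _ _ rfl hx' hy'0 hR'
        rw [e1] at h5
        exact absurd h5 h4.ne'
  rcases lt_trichotomy (c x₀).1 (c' y₀).1 with h | h | h
  · exfalso
    have hlt : (c x₀).1 < δ' := h.trans (c' y₀).2
    have e1 : (c' (c'.symm ⟨(c x₀).1, hlt⟩)).1 = (c x₀).1 := by simp
    have hy0 : (c' (c'.symm ⟨(c x₀).1, hlt⟩)).1 < (c' y₀).1 := by rw [e1]; exact h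
    obtain ⟨x, hx, hR⟩ := h2 _ hy0
    have h5 := key _ _ _ rfl hx hy0 hR
    rw [e1] at h5
    exact absurd h5 hx.ne'
  · exact h
  · exfalso
    have hlt : (c' y₀).1 < δ := h.trans (c x₀).2
    have e1 : (c (c.symm ⟨(c' y₀).1, hlt⟩)).1 = (c' y₀).1 := by simp
    have hx0 : (c (c.symm ⟨(c' y₀).1, hlt⟩)).1 < (c x₀).1 := by rw [e1]; exact h
    obtain ⟨y, hy, hR⟩ := h1 _ hx0
    have h5 := key _ _ _ rfl hx0 hy hR
    rw [e1] at h5
    exact absurd h5 hy.ne

/-- PIECE O1'. -/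
theorem same_exists (V : Vocab) (b b' i j : ℕ) (_hb : b ≠ b') (_hij : i ≠ j) : ∃ G : Formula V,
    ∀ (M : Type u) (A : Str V M) (e : ℕ → M) (W : SOAssign M)
      (δ δ' : Ordinal.{u}) (c : {x : M // GDom W b x} ≃ Lvl δ)
      (c' : {x : M // GDom W b' x} ≃ Lvl δ'), IsLv W b δ c → IsLv W b' δ' c' →
      ∀ (hi : GDom W b (e i)) (hj : GDom W b' (e j)),
      (G.Sat A e W ↔ (c ⟨e i, hi⟩).1 = (c' ⟨e j, hj⟩).1) := by
  refine ⟨exR 2 0 (sameF V b b' i j (i + j + 1)), ?_⟩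
  intro M A e W δ δ' c c' hc hc' hi hj
  rw [sat_exR]
  have hlt : ∀ x y, glt (grp W b) x y ↔ (c x).1 < (c y).1 := fun x y => hc.r 2 x y x
  have hlt' : ∀ x y, glt (grp W b') x y ↔ (c' x).1 < (c' y).1 := fun x y => hc'.r 2 x y x
  have key : ∀ R : (Fin 2 → M) → Prop,
      (sameF V b b' i j (i + j + 1)).Sat A e (W.upd 2 0 R) ↔
      (∀ x : {x : M // GDom W b x}, glt (grp W b) x ⟨e i, hi⟩ → ∃ y : {x : M // GDom W b' x},
        glt (grp W b') y ⟨e j, hj⟩ ∧ R ![x.1, y.1]) ∧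
      (∀ y : {x : M // GDom W b' x}, glt (grp W b') y ⟨e j, hj⟩ → ∃ x : {x : M // GDom W b x},
        glt (grp W b) x ⟨e i, hi⟩ ∧ R ![x.1, y.1]) ∧
      (∀ x x' : {x : M // GDom W b x}, ∀ y y' : {x : M // GDom W b' x},
        glt (grp W b) x ⟨e i, hi⟩ → glt (grp W b) x' ⟨e i, hi⟩ → glt (grp W b') y ⟨e j, hj⟩ →
        glt (grp W b') y' ⟨e j, hj⟩ → R ![x.1, y.1] → R ![x'.1, y'.1] →
        (glt (grp W b) x x' ↔ glt (grp W b') y y')) := by
    intro R
    have h := sat_sameF A e (W.upd 2 0 R) b b' i j (i + j + 1) (by omega) (by omega)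
      (⟨e i, hi⟩ : {x : M // GDom W b x}) (⟨e j, hj⟩ : {x : M // GDom W b' x}) rfl rfl
    rw [upd_same'] at h
    exact h
  constructor
  · rintro ⟨R, hR⟩
    rw [key] at hR
    simp only [hlt, hlt'] at hR
    obtain ⟨h1, h2, h3⟩ := hR
    exact same_core c c' _ _ (fun x y => R ![x.1, y.1]) h1 h2
      (fun x x' y y' k1 k2 k3 k4 k5 k6 => h3 x x' y y' k1 k2 k3 k4 k5 k6)
  · intro h
    refine ⟨fun t => ∃ (h0 : GDom W b (t 0)) (h1 : GDom W b' (t 1)),
      (c ⟨t 0, h0⟩).1 = (c' ⟨t 1, h1⟩).1, ?_⟩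
    rw [key]
    simp only [hlt, hlt']
    refine ⟨?_, ?_, ?_⟩
    · intro x hx
      have hlt1 : (c x).1 < δ' := by
        rw [h] at hx; exact hx.trans (c' _).2
      refine ⟨c'.symm ⟨(c x).1, hlt1⟩, ?_, x.2, (c'.symm ⟨(c x).1, hlt1⟩).2, ?_⟩
      · simp only [Equiv.apply_symm_apply]; rw [← h]; exact hx
      · change (c x).1 = (c' (c'.symm ⟨(c x).1, hlt1⟩)).1
        simp
    · intro y hy
      have hlt1 : (c' y).1 < δ := by
        rw [← h] at hy; exact hy.trans (c _).2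
      refine ⟨c.symm ⟨(c' y).1, hlt1⟩, ?_, (c.symm ⟨(c' y).1, hlt1⟩).2, y.2, ?_⟩
      · simp only [Equiv.apply_symm_apply]; rw [h]; exact hy
      · change (c (c.symm ⟨(c' y).1, hlt1⟩)).1 = (c' y).1
        simp
    · rintro x x' y y' _ _ _ _ ⟨_, _, h5⟩ ⟨_, _, h6⟩
      have h5' : (c x).1 = (c' y).1 := h5
      have h6' : (c x').1 = (c' y').1 := h6
      rw [h5', h6']

end Run7.h505.SO
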