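import Pool.Agent.Run7.h505.SO.K

/-!
# Small formulas: numerals, pairs in named sets, finite conjunctions, tuples
-/

namespace Run7.h505.SO

universe u

open Ordinal Set Run7.h936.SO

/-- `⟨v_i, v_j⟩` belongs to the set named by `v_c`. -/
def upf (i j c : ℕ) : Fm := Fm.ex (Fm.and (Fm.prv (i + 1) (j + 1) 0) (Fm.Uv 0 (c + 1)))

/-- `v_i` is the natural number `r`. -/
def numf : ℕ → ℕ → Fm
  | 0, i => zf i
  | r + 1, i => Fm.ex (Fm.and (numf r 0) (sf 0 (i + 1)))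

/-- Finite conjunction. -/
def conj : List Fm → Fm
  | [] => Fm.tt
  | φ :: l => Fm.and φ (conj l)

section
variable {δ : Ordinal.{u}} [COrd δ]

@[simp] theorem sat_upf (i j c : ℕ) (a : Lvl δ) : (upf i j c).Sat (Lv δ) a ↔
    U (opair (nth (Lv δ) a i).1 (nth (Lv δ) a j).1) (nth (Lv δ) a c).1 := by
  simp only [upf, Fm.sat_and, Fm.sat_ex', Fm.sat_prv, sat_Uv, nth_pr_zero, nth_pr_succ]
  constructor
  · rintro ⟨z, rfl, h⟩; exact h
  · intro h; exact ⟨_, rfl, h⟩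

@[simp] theorem sat_numf (r i : ℕ) (a : Lvl δ) : (numf r i).Sat (Lv δ) a ↔
    (nth (Lv δ) a i).1 = (r : Ordinal.{u}) := by
  induction r generalizing i a with
  | zero => simp [numf]
  | succ r ih =>
    simp only [numf, Fm.sat_and, Fm.sat_ex', ih, sat_sf, nth_pr_zero, nth_pr_succ]
    constructor
    · rintro ⟨z, h1, h2⟩
      rw [h2, h1]; exact (Nat.cast_succ r).symm
    · intro h
      have hlt : (r : Ordinal.{u}) < (nth (Lv δ) a i).1 := by
        rw [h]; exact_mod_cast Nat.lt_succ_self r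
      exact ⟨⟨r, hlt.trans (nth (Lv δ) a i).2⟩, rfl, h.trans (Nat.cast_succ r)⟩

omit [COrd δ] in
@[simp] theorem sat_conj (l : List Fm) (a : Lvl δ) :
    (conj l).Sat (Lv δ) a ↔ ∀ φ ∈ l, φ.Sat (Lv δ) a := by
  induction l with
  | nil => simp [conj]
  | cons φ l ih => simp [conj, ih]

/-- Value of a stack of level elements. -/
theorem foldr_val (l : List (Lvl δ)) (s : Lvl δ) :
    (l.foldr (PFun.pr (Lv δ)) s).1 = (l.map Subtype.val).foldr opair s.1 := by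
  induction l with
  | nil => rfl
  | cons x l ih => simp [ih]

end

theorem succ_lt_full {Ω : Ordinal.{u}} [FullΩ Ω] {a : Ordinal.{u}} (h : a < Ω) : a + 1 < Ω := by
  obtain ⟨δ, h1, h2, _⟩ := FullΩ.lim a h
  exact (Order.add_one_le_of_lt h2).trans_lt h1

/-- Names for bounded sets, with a non-strict bound. -/
theorem full_le {Ω : Ordinal.{u}} [FullΩ Ω] {γ : Ordinal.{u}} (h : γ < Ω) (X : Set Ordinal.{u})
    (hX : ∀ ξ ∈ X, ξ ≤ γ) : ∃ c : Lvl Ω, ∀ ξ, U ξ c.1 ↔ ξ ∈ X := by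
  obtain ⟨c, hc, hc'⟩ := FullΩ.full (γ + 1) (succ_lt_full h) X
    (fun ξ hξ => (hX ξ hξ).trans_lt (lt_add_one _))
  exact ⟨⟨c, hc⟩, hc'⟩

end Run7.h505.SO
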