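import Pool.Agent.Run7.h505.SO.O1b
import Pool.Agent.Run7.h505.SO.Util

/-!
# Codes of structures, second-order side
-/

namespace Run7.h505.SO

universe u

open Ordinal Set Run7.h936.SO

variable {V : Vocab}

/-- packed formulas over a group that codes a level -/
theorem sat_grp {M : Type u} {W : SOAssign M} {b : ℕ} {δ : Ordinal.{u}}
    {c : {x : M // GDom W b x} ≃ Lvl δ} (h : IsLv W b δ c) (φ : Fm) (a : {x : M // GDom W b x}) :
    φ.Sat (grp W b) a ↔ φ.Sat (Lv δ) (c a) := by
  have := h.cord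
  apply Fm.sat_iso c h.P ?_ h.r
  intro x y
  change (∃ t : {x : M // GDom W b x}, (grp W b).P x t y) ↔ of1 (c y).1 = (c x).1
  constructor
  · rintro ⟨t, ht⟩
    rw [h.P] at ht
    have ht' : opair (c x).1 (c t).1 = (c y).1 := ht
    rw [← ht', of1_opair]
  · intro h1
    refine ⟨c.symm (PFun.f2 (Lv δ) (c y)), ?_⟩
    rw [h.P, Equiv.apply_symm_apply]
    change opair (c x).1 (of2 (c y).1) = (c y).1
    rw [← h1, opair_of]

/-- The translation of a packed formula. -/
noncomputable def trF (V : Vocab) (φ : Fm) (b n : ℕ) : Formula V :=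
  Classical.choose (tr_exists'.{u} V φ b n)

theorem sat_trF {M : Type u} (A : Str V M) (e : ℕ → M) (W : SOAssign M) (φ : Fm) (b n : ℕ)
    (a : {x : M // GDom W b x}) (h : e n = a.1) :
    (trF.{u} V φ b n).Sat A e W ↔ φ.Sat (grp W b) a :=
  Classical.choose_spec (tr_exists'.{u} V φ b n) M A e W a h

/-- The packed formula `φ` at the environment `⟨x_v, ⟨x_w, …⟩⟩`; variables `≥ f` are fresh. -/
noncomputable def ev2F (V : Vocab) (φ : Fm) (b v w f : ℕ) : Formula V :=
  exD b f (exD b (f + 1) (exD b (f + 2) (.and (tF V (6 * b) w f (f + 1))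
    (.and (tF V (6 * b) v (f + 1) (f + 2)) (trF.{u} V φ b (f + 2))))))

theorem sat_ev2F {M : Type u} (A : Str V M) (e : ℕ → M) (W : SOAssign M) (φ : Fm) {b v w f : ℕ}
    (hv : v < f) (hw : w < f) {δ : Ordinal.{u}} [COrd δ]
    {c : {x : M // GDom W b x} ≃ Lvl δ} (h : IsLv W b δ c) (x y : {x : M // GDom W b x})
    (hx : e v = x.1) (hy : e w = y.1) :
    (ev2F.{u} V φ b v w f).Sat A e W ↔
      ∃ t : Lvl δ, φ.Sat (Lv δ) (PFun.pr (Lv δ) (c x) (PFun.pr (Lv δ) (c y) t)) := by
  unfold ev2F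
  simp only [sat_exD]
  have n0 : v ≠ f := by omega
  have n1 : v ≠ f + 1 := by omega
  have n2 : v ≠ f + 2 := by omega
  have k0 : w ≠ f := by omega
  have k1 : w ≠ f + 1 := by omega
  have k2 : w ≠ f + 2 := by omega
  constructor
  · rintro ⟨t, a, a', hs⟩
    rw [sat_andF, sat_andF,
      sat_P A _ W b w f (f + 1) y t a (by simp [k0, k1, k2, hy]) (by simp) (by simp),
      sat_P A _ W b v (f + 1) (f + 2) x a a' (by simp [n0, n1, n2, hx]) (by simp) (by simp),
      sat_trF A _ W φ b (f + 2) a' (by simp), h.P, h.P, sat_grp h, PFun.P_iff, PFun.P_iff] at hs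
    obtain ⟨h1, h2, h3⟩ := hs
    refine ⟨c t, ?_⟩
    rw [h1, h2]; exact h3
  · rintro ⟨t, ht⟩
    refine ⟨c.symm t, c.symm (PFun.pr (Lv δ) (c y) t),
      c.symm (PFun.pr (Lv δ) (c x) (PFun.pr (Lv δ) (c y) t)), ?_⟩
    rw [sat_andF, sat_andF,
      sat_P A _ W b w f (f + 1) y (c.symm t) (c.symm (PFun.pr (Lv δ) (c y) t))
        (by simp [k0, k1, k2, hy]) (by simp) (by simp),
      sat_P A _ W b v (f + 1) (f + 2) x (c.symm (PFun.pr (Lv δ) (c y) t))
        (c.symm (PFun.pr (Lv δ) (c x) (PFun.pr (Lv δ) (c y) t)))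
        (by simp [n0, n1, n2, hx]) (by simp) (by simp),
      sat_trF A _ W φ b (f + 2) (c.symm (PFun.pr (Lv δ) (c x) (PFun.pr (Lv δ) (c y) t))) (by simp),
      h.P, h.P, sat_grp h, PFun.P_iff, PFun.P_iff]
    simp only [Equiv.apply_symm_apply]
    exact ⟨trivial, trivial, ht⟩

/-- `x_v` is the stack of the images (under `X^2_0`) of the variables in the list. -/
def stkF (V : Vocab) (b : ℕ) : List ℕ → ℕ → ℕ → Formula V
  | [], v, w => allD b w (.neg (ltF V b w v))
  | k :: l, v, w => exD b w (exD b (w + 1) (.and (bF V 0 k w)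
      (.and (tF V (6 * b) w (w + 1) v) (stkF V b l (w + 1) (w + 2)))))

theorem sat_stkF {M : Type u} (A : Str V M) (W : SOAssign M) {b : ℕ} {δ : Ordinal.{u}} [COrd δ]
    {c : {x : M // GDom W b x} ≃ Lvl δ} (h : IsLv W b δ c) (F : M → Ordinal.{u})
    (hR : ∀ (m : M) (a : {x : M // GDom W b x}), W 2 0 ![m, a.1] ↔ F m = (c a).1)
    (hF : ∀ m, F m < δ) (l : List ℕ) : ∀ (e : ℕ → M) (v w : ℕ) (_ : ∀ k ∈ l, k < w) (_ : v < w)
      (x : {x : M // GDom W b x}) (_ : e v = x.1),
    ((stkF V b l v w).Sat A e W ↔ (c x).1 = ostk (l.map fun k => F (e k))) := by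
  induction l with
  | nil =>
    intro e v w hl hv x hx
    have n0 : v ≠ w := by omega
    unfold stkF
    rw [sat_allD]
    have hlt : ∀ x y, glt (grp W b) x y ↔ (c x).1 < (c y).1 := fun x y => h.r 2 x y x
    constructor
    · intro h1
      by_contra hne
      have h2 : (c (c.symm ⟨0, COrd.pos⟩)).1 < (c x).1 := by
        simp only [Equiv.apply_symm_apply]
        exact pos_iff_ne_zero.2 hne
      have h3 := h1 (c.symm ⟨0, COrd.pos⟩)
      rw [sat_negF, sat_ltF A _ W b w v (c.symm ⟨0, COrd.pos⟩) x (by simp) (by simp [n0, hx]),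
        hlt] at h3
      exact h3 h2
    · intro h1 y
      rw [sat_negF, sat_ltF A _ W b w v y x (by simp) (by simp [n0, hx]), hlt, h1]
      simp
  | cons k l ih =>
    intro e v w hl hv x hx
    have n0 : v ≠ w := by omega
    have n1 : v ≠ w + 1 := by omega
    have k0 : k ≠ w := by have := hl k (by simp); omega
    have k1 : k ≠ w + 1 := by have := hl k (by simp); omega
    have hl' : ∀ k' ∈ l, k' < w + 2 := fun k' hk' => by have := hl k' (by simp [hk']); omega
    have hmap : ∀ p q : M, (l.map fun k' => F (Function.update (Function.update e w p) (w + 1) q k'))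
        = l.map fun k' => F (e k') := by
      intro p q
      apply List.map_congr_left
      intro k' hk'
      have := hl k' (by simp [hk'])
      rw [Function.update_of_ne (by omega), Function.update_of_ne (by omega)]
    unfold stkF
    simp only [sat_exD]
    rw [List.map_cons, ostk_cons]
    constructor
    · rintro ⟨p, q, hs⟩
      rw [sat_andF, sat_andF, sat_bF,
        sat_P A _ W b w (w + 1) v p q x (by simp) (by simp) (by simp [n0, n1, hx]),
        ih _ (w + 1) (w + 2) hl' (by omega) q (by simp), hmap, h.P, PFun.P_iff] at hs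
      obtain ⟨h1, h2, h3⟩ := hs
      have h1' : W 2 0 ![e k, p.1] := by simpa [k0, k1] using h1
      rw [hR] at h1'
      rw [h1', ← h3, ← h2]
      rfl
    · intro hs
      have hq : ostk (l.map fun k' => F (e k')) < δ := by
        apply ostk_lt
        intro y hy
        obtain ⟨k', _, rfl⟩ := List.mem_map.1 hy
        exact hF _
      refine ⟨c.symm ⟨F (e k), hF _⟩, c.symm ⟨_, hq⟩, ?_⟩
      rw [sat_andF, sat_andF, sat_bF,
        sat_P A _ W b w (w + 1) v (c.symm ⟨F (e k), hF _⟩) (c.symm ⟨_, hq⟩) x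
          (by simp) (by simp) (by simp [n0, n1, hx]),
        ih _ (w + 1) (w + 2) hl' (by omega) (c.symm ⟨_, hq⟩) (by simp), hmap, h.P, PFun.P_iff]
      refine ⟨?_, ?_, ?_⟩
      · have : W 2 0 ![e k, (c.symm ⟨F (e k), hF _⟩).1] := by rw [hR]; simp
        simpa [k0, k1] using this
      · simp only [Equiv.apply_symm_apply]
        exact Subtype.ext hs.symm
      · simp

/-- `U (⟨r, v_0⟩, v_1)` -/
def hitφ (r : ℕ) : Fm := Fm.ex (Fm.and (numf r 0) (upf 0 1 2))

theorem sat_hitφ {δ : Ordinal.{u}} [COrd δ] (hω : ω ≤ δ) (r : ℕ) (x y t : Lvl δ) :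
    (hitφ r).Sat (Lv δ) (PFun.pr (Lv δ) x (PFun.pr (Lv δ) y t)) ↔
      U (opair (r : Ordinal.{u}) x.1) y.1 := by
  simp only [hitφ, Fm.sat_ex', Fm.sat_and, sat_numf, sat_upf, nth_pr_zero, nth_pr_succ]
  constructor
  · rintro ⟨z, h1, h2⟩
    rw [← h1]; exact h2
  · intro h
    exact ⟨⟨r, (Ordinal.natCast_lt_omega0 r).trans_le hω⟩, rfl, h⟩

/-- the tuple listed by `l` with the number `r` belongs to `x_j` -/
noncomputable def hitF (V : Vocab) (b r : ℕ) (l : List ℕ) (j w : ℕ) : Formula V :=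
  exD b w (.and (stkF V b l w (w + 1)) (ev2F.{u} V (hitφ r) b w j (w + 1)))

theorem sat_hitF {M : Type u} (A : Str V M) (W : SOAssign M) {b : ℕ} {δ : Ordinal.{u}} [COrd δ]
    (hω : ω ≤ δ) {c : {x : M // GDom W b x} ≃ Lvl δ} (h : IsLv W b δ c) (F : M → Ordinal.{u})
    (hR : ∀ (m : M) (a : {x : M // GDom W b x}), W 2 0 ![m, a.1] ↔ F m = (c a).1)
    (hF : ∀ m, F m < δ) (l : List ℕ) (e : ℕ → M) (r j w : ℕ) (hl : ∀ k ∈ l, k < w) (hj : j < w)
    (y : {x : M // GDom W b x}) (hy : e j = y.1) :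
    (hitF.{u} V b r l j w).Sat A e W ↔
      U (opair (r : Ordinal.{u}) (ostk (l.map fun k => F (e k)))) (c y).1 := by
  have hq : ostk (l.map fun k' => F (e k')) < δ := by
    apply ostk_lt
    intro y hy
    obtain ⟨k', _, rfl⟩ := List.mem_map.1 hy
    exact hF _
  have hmap : ∀ p : M, (l.map fun k' => F (Function.update e w p k'))
      = l.map fun k' => F (e k') := by
    intro p
    apply List.map_congr_left
    intro k' hk'
    have := hl k' hk'
    rw [Function.update_of_ne (by omega)]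
  have hl' : ∀ k' ∈ l, k' < w + 1 := fun k' hk' => by have := hl k' hk'; omega
  have n0 : j ≠ w := by omega
  unfold hitF
  rw [sat_exD]
  have key : ∀ x : {x : M // GDom W b x},
      (Formula.and (stkF V b l w (w + 1)) (ev2F.{u} V (hitφ r) b w j (w + 1))).Sat A
        (Function.update e w x.1) W ↔ ((c x).1 = ostk (l.map fun k => F (e k)) ∧
          U (opair (r : Ordinal.{u}) (c x).1) (c y).1) := by
    intro x
    rw [sat_andF, sat_stkF A W h F hR hF l _ w (w + 1) hl' (by omega) x (by simp), hmap,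
      sat_ev2F A _ W (hitφ r) (by omega) (by omega) h x y (by simp) (by simp [n0, hy])]
    simp only [sat_hitφ hω]
    constructor
    · rintro ⟨h1, _, h2⟩; exact ⟨h1, h2⟩
    · rintro ⟨h1, h2⟩; exact ⟨h1, c x, h2⟩
  constructor
  · rintro ⟨x, hx⟩
    rw [key] at hx
    rw [← hx.1]; exact hx.2
  · intro h1
    refine ⟨c.symm ⟨_, hq⟩, ?_⟩
    rw [key]
    simp only [Equiv.apply_symm_apply, true_and]
    exact h1

/-- quantify universally over `x_N, …, x_{N+n-1}` -/
def allN (V : Vocab) : ℕ → ℕ → Formula V → Formula V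
  | _, 0, F => F
  | N, n + 1, F => .all N (allN V (N + 1) n F)

theorem sat_allN {M : Type u} (A : Str V M) (W : SOAssign M) (F : Formula V) (n : ℕ) :
    ∀ (N : ℕ) (e : ℕ → M), (allN V N n F).Sat A e W ↔
      ∀ e' : ℕ → M, (∀ k, (k < N ∨ N + n ≤ k) → e' k = e k) → F.Sat A e' W := by
  induction n with
  | zero =>
    intro N e
    unfold allN
    constructor
    · intro h e' he'
      have : e' = e := funext fun k => he' k (by omega)
      rw [this]; exact h
    · intro h
      exact h e fun _ _ => rfl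
  | succ n ih =>
    intro N e
    unfold allN
    rw [sat_allI]
    constructor
    · intro h e' he'
      refine (ih (N + 1) (Function.update e N (e' N))).1 (h (e' N)) e' ?_
      intro k hk
      by_cases hkN : k = N
      · subst hkN; simp
      · rw [Function.update_of_ne hkN]
        exact he' k (by omega)
    · intro h x
      rw [ih]
      intro e' he'
      apply h
      intro k hk
      rw [he' k (by omega), Function.update_of_ne (by omega)]

/-- finite conjunction -/
def bigF (V : Vocab) : List (Formula V) → Formula V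
  | [] => .all 0 (.eq (.var 0) (.var 0))
  | F :: l => .and F (bigF V l)

theorem sat_bigF {M : Type u} (A : Str V M) (e : ℕ → M) (W : SOAssign M) (l : List (Formula V)) :
    (bigF V l).Sat A e W ↔ ∀ F ∈ l, F.Sat A e W := by
  induction l with
  | nil => simp [bigF]
  | cons F l ih => simp [bigF, ih]

/-- the clause for a relation symbol -/
noncomputable def relC (V : Vocab) (b j N : ℕ) (R : Fin V.nRel) : Formula V :=
  allN V N (V.relAr R) (iffF (.rel R fun i => .var (N + i))
    (hitF.{u} V b R (List.ofFn fun i : Fin (V.relAr R) => N + (i : ℕ)) j (N + V.relAr R)))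

/-- the clause for a function symbol -/
noncomputable def fnC (V : Vocab) (b j N : ℕ) (f : Fin V.nFun) : Formula V :=
  allN V N (V.funAr f + 1) (iffF (.eq (.app f fun i => .var (N + 1 + i)) (.var N))
    (hitF.{u} V b (V.nRel + f) (N :: List.ofFn fun i : Fin (V.funAr f) => N + 1 + (i : ℕ)) j
      (N + V.funAr f + 1)))

theorem sat_relC {M : Type u} (A : Str V M) (W : SOAssign M) {b : ℕ} {δ : Ordinal.{u}} [COrd δ]
    (hω : ω ≤ δ) {c : {x : M // GDom W b x} ≃ Lvl δ} (h : IsLv W b δ c) (F : M → Ordinal.{u})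
    (hR : ∀ (m : M) (a : {x : M // GDom W b x}), W 2 0 ![m, a.1] ↔ F m = (c a).1)
    (hF : ∀ m, F m < δ) (e : ℕ → M) (j N : ℕ) (hj : j < N)
    (y : {x : M // GDom W b x}) (hy : e j = y.1) (R : Fin V.nRel) :
    (relC.{u} V b j N R).Sat A e W ↔ ∀ a, A.rel R a ↔
      U (opair ((R : ℕ) : Ordinal.{u}) (ostk (List.ofFn fun i => F (a i)))) (c y).1 := by
  unfold relC
  rw [sat_allN]
  have key : ∀ e' : ℕ → M, (∀ k, (k < N ∨ N + V.relAr R ≤ k) → e' k = e k) →
      ((iffF (.rel R fun i => .var (N + i))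
    (hitF.{u} V b R (List.ofFn fun i : Fin (V.relAr R) => N + (i : ℕ)) j (N + V.relAr R))
      : Formula V).Sat A e' W ↔ (A.rel R (fun i => e' (N + i)) ↔
      U (opair ((R : ℕ) : Ordinal.{u}) (ostk (List.ofFn fun i : Fin (V.relAr R) =>
        F (e' (N + i))))) (c y).1)) := by
    intro e' he'
    rw [sat_iffF, sat_hitF A W hω h F hR hF _ e' R j (N + V.relAr R) ?_ (by omega) y
      (by rw [he' j (Or.inl hj), hy])]
    · rw [List.map_ofFn]
      exact Iff.rfl
    · intro k hk
      obtain ⟨i, rfl⟩ := (List.mem_ofFn ..).1 hk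
      have := i.2
      omega
  constructor
  · intro h1 a
    have h2 : ∀ k, (k < N ∨ N + V.relAr R ≤ k) →
        (fun k => if h : N ≤ k ∧ k < N + V.relAr R then a ⟨k - N, by omega⟩ else e k) k = e k := by
      intro k hk
      simp only
      rw [dif_neg (by omega)]
    have h3 := (key _ h2).1 (h1 _ h2)
    have h4 : ∀ i : Fin (V.relAr R), (if h : N ≤ N + (i : ℕ) ∧ N + (i : ℕ) < N + V.relAr R then
        a ⟨N + (i : ℕ) - N, by omega⟩ else e (N + i)) = a i := by
      intro i
      rw [dif_pos ⟨by omega, by have := i.2; omega⟩]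
      congr 1
      apply Fin.ext
      simp
    simp only [h4] at h3
    exact h3
  · intro h1 e' he'
    rw [key e' he']
    exact h1 _

theorem sat_fnC {M : Type u} (A : Str V M) (W : SOAssign M) {b : ℕ} {δ : Ordinal.{u}} [COrd δ]
    (hω : ω ≤ δ) {c : {x : M // GDom W b x} ≃ Lvl δ} (h : IsLv W b δ c) (F : M → Ordinal.{u})
    (hR : ∀ (m : M) (a : {x : M // GDom W b x}), W 2 0 ![m, a.1] ↔ F m = (c a).1)
    (hF : ∀ m, F m < δ) (e : ℕ → M) (j N : ℕ) (hj : j < N)
    (y : {x : M // GDom W b x}) (hy : e j = y.1) (f : Fin V.nFun) :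
    (fnC.{u} V b j N f).Sat A e W ↔ ∀ a x, A.fn f a = x ↔
      U (opair ((V.nRel + f : ℕ) : Ordinal.{u}) (opair (F x) (ostk (List.ofFn fun i => F (a i)))))
        (c y).1 := by
  unfold fnC
  rw [sat_allN]
  have key : ∀ e' : ℕ → M, (∀ k, (k < N ∨ N + (V.funAr f + 1) ≤ k) → e' k = e k) →
      ((iffF (.eq (.app f fun i => .var (N + 1 + i)) (.var N))
    (hitF.{u} V b (V.nRel + f) (N :: List.ofFn fun i : Fin (V.funAr f) => N + 1 + (i : ℕ)) j
      (N + V.funAr f + 1))
      : Formula V).Sat A e' W ↔ (A.fn f (fun i => e' (N + 1 + i)) = e' N ↔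
      U (opair ((V.nRel + f : ℕ) : Ordinal.{u}) (opair (F (e' N))
        (ostk (List.ofFn fun i : Fin (V.funAr f) => F (e' (N + 1 + i)))))) (c y).1)) := by
    intro e' he'
    rw [sat_iffF, sat_hitF A W hω h F hR hF _ e' (V.nRel + f) j (N + V.funAr f + 1) ?_ (by omega) y
      (by rw [he' j (Or.inl hj), hy])]
    · rw [List.map_cons, List.map_ofFn, ostk_cons]
      exact Iff.rfl
    · intro k hk
      rcases List.mem_cons.1 hk with rfl | hk
      · omega
      · obtain ⟨i, rfl⟩ := (List.mem_ofFn ..).1 hk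
        have := i.2
        omega
  constructor
  · intro h1 a x
    have h2 : ∀ k, (k < N ∨ N + (V.funAr f + 1) ≤ k) →
        (fun k => if k = N then x else
          if h : N + 1 ≤ k ∧ k < N + 1 + V.funAr f then a ⟨k - (N + 1), by omega⟩ else e k) k
          = e k := by
      intro k hk
      simp only
      rw [if_neg (by omega), dif_neg (by omega)]
    have h3 := (key _ h2).1 (h1 _ h2)
    have h4 : ∀ i : Fin (V.funAr f), (if N + 1 + (i : ℕ) = N then x else
        if h : N + 1 ≤ N + 1 + (i : ℕ) ∧ N + 1 + (i : ℕ) < N + 1 + V.funAr f then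
        a ⟨N + 1 + (i : ℕ) - (N + 1), by omega⟩ else e (N + 1 + i)) = a i := by
      intro i
      rw [if_neg (by omega), dif_pos ⟨by omega, by have := i.2; omega⟩]
      congr 1
      apply Fin.ext
      simp
    simp only [h4, if_true] at h3
    exact h3
  · intro h1 e' he'
    rw [key e' he']
    exact h1 _ _

/-- `X^2_0` is a bijection from the domain onto the elements of group `b` below `x_i`. -/
def bijF (V : Vocab) (b i N : ℕ) : Formula V :=
  .and (.all N (exD b (N + 1) (.and (ltF V b (N + 1) i) (bF V 0 N (N + 1)))))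
  (.and (.all N (allD b (N + 1) (allD b (N + 2) (impF (.and (bF V 0 N (N + 1)) (bF V 0 N (N + 2)))
    (.eq (.var (N + 1)) (.var (N + 2)))))))
  (.and (.all N (.all (N + 1) (allD b (N + 2) (impF (.and (bF V 0 N (N + 2))
    (bF V 0 (N + 1) (N + 2))) (.eq (.var N) (.var (N + 1)))))))
  (allD b (N + 1) (impF (ltF V b (N + 1) i) (exI N (bF V 0 N (N + 1)))))))

theorem sat_bijF {M : Type u} (A : Str V M) (e : ℕ → M) (W : SOAssign M) {b i N : ℕ} (hi : i < N)
    {δ : Ordinal.{u}} {c : {x : M // GDom W b x} ≃ Lvl δ} (h : IsLv W b δ c)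
    (x : {x : M // GDom W b x}) (hx : e i = x.1) :
    (bijF V b i N).Sat A e W ↔
      (∀ m, ∃ a : {x : M // GDom W b x}, (c a).1 < (c x).1 ∧ W 2 0 ![m, a.1]) ∧
      (∀ m (a a' : {x : M // GDom W b x}), W 2 0 ![m, a.1] → W 2 0 ![m, a'.1] → a = a') ∧
      (∀ m m' (a : {x : M // GDom W b x}), W 2 0 ![m, a.1] → W 2 0 ![m', a.1] → m = m') ∧
      (∀ a : {x : M // GDom W b x}, (c a).1 < (c x).1 → ∃ m, W 2 0 ![m, a.1]) := by
  have hlt : ∀ x y, glt (grp W b) x y ↔ (c x).1 < (c y).1 := fun x y => h.r 2 x y x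
  have n0 : i ≠ N := by omega
  have n1 : i ≠ N + 1 := by omega
  have n2 : i ≠ N + 2 := by omega
  unfold bijF
  rw [sat_andF, sat_andF, sat_andF]
  refine and_congr ?_ (and_congr ?_ (and_congr ?_ ?_))
  · rw [sat_allI]
    refine forall_congr' fun m => ?_
    rw [sat_exD]
    refine exists_congr fun a => ?_
    rw [sat_andF, sat_ltF A _ W b (N + 1) i a x (by simp) (by simp [n0, n1, hx]), hlt, sat_bF]
    simp
  · rw [sat_allI]
    refine forall_congr' fun m => ?_
    rw [sat_allD]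
    refine forall_congr' fun a => ?_
    rw [sat_allD]
    refine forall_congr' fun a' => ?_
    simp only [sat_impF, sat_andF, sat_bF, sat_eqV]
    simp [Subtype.ext_iff]
  · rw [sat_allI]
    refine forall_congr' fun m => ?_
    rw [sat_allI]
    refine forall_congr' fun m' => ?_
    rw [sat_allD]
    refine forall_congr' fun a => ?_
    simp only [sat_impF, sat_andF, sat_bF, sat_eqV]
    simp
  · rw [sat_allD]
    refine forall_congr' fun a => ?_
    rw [sat_impF, sat_ltF A _ W b (N + 1) i a x (by simp) (by simp [n0, n1, hx]), hlt, sat_exI]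
    refine imp_congr_right fun _ => exists_congr fun m => ?_
    rw [sat_bF]
    simp

/-- PIECE O3. -/
theorem cod_exists (V : Vocab) (b i j : ℕ) : ∃ G : Formula V,
    ∀ (M : Type u) (A : Str V M) (e : ℕ → M) (W : SOAssign M)
      (δ : Ordinal.{u}) (c : {x : M // GDom W b x} ≃ Lvl δ), IsLv W b δ c → ω ≤ δ →
      ∀ (hi : GDom W b (e i)) (hj : GDom W b (e j)),
      (G.Sat A e W ↔ ∃ F : M → Ordinal.{u}, Codes A F (c ⟨e i, hi⟩).1 (c ⟨e j, hj⟩).1) := by
  refine ⟨exR 2 0 (.and (bijF V b i (i + j + 1))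
    (.and (bigF V (List.ofFn fun R => relC.{u} V b j (i + j + 1) R))
      (bigF V (List.ofFn fun f => fnC.{u} V b j (i + j + 1) f)))), ?_⟩
  intro M A e W δ c hc hω hi hj
  have := hc.cord
  rw [sat_exR]
  have hbij : ∀ R : (Fin 2 → M) → Prop, (bijF V b i (i + j + 1)).Sat A e (W.upd 2 0 R) ↔
      (∀ m, ∃ a : {x : M // GDom W b x}, (c a).1 < (c ⟨e i, hi⟩).1 ∧ R ![m, a.1]) ∧
      (∀ m (a a' : {x : M // GDom W b x}), R ![m, a.1] → R ![m, a'.1] → a = a') ∧
      (∀ m m' (a : {x : M // GDom W b x}), R ![m, a.1] → R ![m', a.1] → m = m') ∧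
      (∀ a : {x : M // GDom W b x}, (c a).1 < (c ⟨e i, hi⟩).1 → ∃ m, R ![m, a.1]) := by
    intro R
    have h1 : IsLv (W.upd 2 0 R) b δ c := ⟨hc.cord, hc.P, hc.r⟩
    have h := sat_bijF A e (W.upd 2 0 R) (b := b) (i := i) (N := i + j + 1) (by omega) h1
      ⟨e i, hi⟩ rfl
    rw [upd_same'] at h
    exact h
  have hcod : ∀ (R : (Fin 2 → M) → Prop) (F : M → Ordinal.{u}),
      (∀ (m : M) (a : {x : M // GDom W b x}), R ![m, a.1] ↔ F m = (c a).1) → (∀ m, F m < δ) →
      (((bigF V (List.ofFn fun R => relC.{u} V b j (i + j + 1) R)).Sat A e (W.upd 2 0 R) ∧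
      (bigF V (List.ofFn fun f => fnC.{u} V b j (i + j + 1) f)).Sat A e (W.upd 2 0 R)) ↔
      ((∀ R a, A.rel R a ↔ U (opair ((R : ℕ) : Ordinal.{u}) (ostk (List.ofFn fun i => F (a i))))
        (c ⟨e j, hj⟩).1) ∧
      (∀ f a x, A.fn f a = x ↔ U (opair ((V.nRel + f : ℕ) : Ordinal.{u})
        (opair (F x) (ostk (List.ofFn fun i => F (a i))))) (c ⟨e j, hj⟩).1))) := by
    intro R F hR hF
    have h1 : IsLv (W.upd 2 0 R) b δ c := ⟨hc.cord, hc.P, hc.r⟩
    have hR' : ∀ (m : M) (a : {x : M // GDom W b x}), (W.upd 2 0 R) 2 0 ![m, a.1] ↔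
        F m = (c a).1 := by
      intro m a
      rw [upd_same']; exact hR m a
    rw [sat_bigF, sat_bigF]
    refine and_congr ?_ ?_
    · constructor
      · intro h2 S
        exact (sat_relC A (W.upd 2 0 R) hω h1 F hR' hF e j (i + j + 1) (by omega) ⟨e j, hj⟩ rfl S).1
          (h2 _ ((List.mem_ofFn ..).2 ⟨S, rfl⟩))
      · intro h2 G hG
        obtain ⟨S, rfl⟩ := (List.mem_ofFn ..).1 hG
        exact (sat_relC A (W.upd 2 0 R) hω h1 F hR' hF e j (i + j + 1) (by omega) ⟨e j, hj⟩ rfl S).2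
          (h2 S)
    · constructor
      · intro h2 S
        exact (sat_fnC A (W.upd 2 0 R) hω h1 F hR' hF e j (i + j + 1) (by omega) ⟨e j, hj⟩ rfl S).1
          (h2 _ ((List.mem_ofFn ..).2 ⟨S, rfl⟩))
      · intro h2 G hG
        obtain ⟨S, rfl⟩ := (List.mem_ofFn ..).1 hG
        exact (sat_fnC A (W.upd 2 0 R) hω h1 F hR' hF e j (i + j + 1) (by omega) ⟨e j, hj⟩ rfl S).2
          (h2 S)
  constructor
  · rintro ⟨R, hR⟩
    rw [sat_andF, sat_andF, hbij] at hR
    obtain ⟨⟨h1, h2, h3, h4⟩, h5⟩ := hR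
    choose a ha hRa using h1
    have hRF : ∀ (m : M) (a' : {x : M // GDom W b x}), R ![m, a'.1] ↔ (c (a m)).1 = (c a').1 := by
      intro m a'
      constructor
      · intro h; rw [h2 m _ _ h (hRa m)]
      · intro h
        have : a m = a' := c.injective (Subtype.ext h)
        rw [← this]; exact hRa m
    have hF : ∀ m, (c (a m)).1 < δ := fun m => (c (a m)).2
    rw [hcod R (fun m => (c (a m)).1) hRF hF] at h5
    refine ⟨fun m => (c (a m)).1, ?_, ?_, h5.1, h5.2⟩
    · intro m m' hm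
      have : a m = a m' := c.injective (Subtype.ext hm)
      exact h3 m m' (a m) (hRa m) (by rw [this]; exact hRa m')
    · intro ξ
      constructor
      · intro hξ
        have hξ' : ξ < δ := hξ.trans (c _).2
        obtain ⟨m, hm⟩ := h4 (c.symm ⟨ξ, hξ'⟩) (by simpa using hξ)
        refine ⟨m, ?_⟩
        rw [hRF] at hm
        simpa using hm
      · rintro ⟨m, rfl⟩
        exact ha m
  · rintro ⟨F, hF⟩
    have hFδ : ∀ m, F m < δ := fun m => ((hF.range _).2 ⟨m, rfl⟩).trans (c _).2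
    refine ⟨fun t => ∃ h : GDom W b (t 1), F (t 0) = (c ⟨t 1, h⟩).1, ?_⟩
    have hR : ∀ (m : M) (a : {x : M // GDom W b x}),
        (fun t : Fin 2 → M => ∃ h : GDom W b (t 1), F (t 0) = (c ⟨t 1, h⟩).1) ![m, a.1] ↔
          F m = (c a).1 := by
      intro m a
      constructor
      · rintro ⟨_, h⟩; exact h
      · intro h; exact ⟨a.2, h⟩
    rw [sat_andF, sat_andF, hbij, hcod _ F hR hFδ]
    simp only [hR]
    refine ⟨⟨?_, ?_, ?_, ?_⟩, hF.rel, hF.fn⟩
    · intro m
      refine ⟨c.symm ⟨F m, hFδ m⟩, ?_, ?_⟩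
      · rw [Equiv.apply_symm_apply]
        exact (hF.range _).2 ⟨m, rfl⟩
      · rw [Equiv.apply_symm_apply]
    · intro m a a' h1 h2
      exact c.injective (Subtype.ext (h1.symm.trans h2))
    · intro m m' a h1 h2
      exact hF.inj (h1.trans h2.symm)
    · intro a ha
      exact (hF.range _).1 ha

end Run7.h505.SO
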